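import Mathlib

/-!
# Real analysis for the growth
-/

namespace Pool.Agent.H9.DegGrowth

open Filter

theorem eventually_pow (r : ℝ) (hr : 1 < r) (A : ℝ) (k : ℕ) :
    ∀ᶠ n : ℕ in atTop, A * ((n : ℝ) + 1) ^ k < r ^ n := by
  have h1 := tendsto_pow_const_div_const_pow_of_one_lt k hr
  have h2 := (h1.comp (tendsto_add_atTop_nat 1)).const_mul (A * r)
  rw [mul_zero] at h2
  have h3 := h2.eventually (gt_mem_nhds (show (0 : ℝ) < 1 by norm_num))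
  filter_upwards [h3] with n hn
  have hr0 : 0 < r := by linarith
  simp only [Function.comp_apply] at hn
  push_cast at hn
  have hp : 0 < r ^ (n + 1) := by positivity
  have e : A * r * (((n : ℝ) + 1) ^ k / r ^ (n + 1)) = (A * r * ((n : ℝ) + 1) ^ k) / r ^ (n + 1) := by
    ring
  rw [e, div_lt_one hp, pow_succ] at hn
  have : (A * ((n : ℝ) + 1) ^ k) * r < r ^ n * r := by linarith
  exact lt_of_mul_lt_mul_right this hr0.le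

theorem tendsto_two_pow : Tendsto (fun i : ℕ => 2 ^ (i + 1)) atTop atTop :=
  (tendsto_pow_atTop_atTop_of_one_lt (by norm_num : (1 : ℕ) < 2)).comp (tendsto_add_atTop_nat 1)

theorem not_comparable (d : ℕ → ℕ) (C k : ℕ) (hu : ∀ n, d n ≤ C * (n + 1) ^ k) (C' C'' : ℕ)
    (hl : ∀ i, 4 * 16 ^ i ≤ C' * d (2 ^ (i + 1)) + C'' * 4 ^ i) (l : ℕ) (hll : l ≤ 3) (δ : ℝ)
    (c1 c2 c3 : ℝ) (h1 : 0 < c1) (h2 : 0 < c2)
    (h : ∀ n : ℕ, c3 ≤ n → c1 * d n ≤ (n : ℝ) ^ l * δ ^ n ∧ (n : ℝ) ^ l * δ ^ n ≤ c2 * d n) :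
    False := by
  have hev : ∀ i : ℕ, δ ^ (2 ^ (i + 1)) = |δ| ^ (2 ^ (i + 1)) := by
    intro i
    rw [pow_abs, abs_of_nonneg]
    exact Even.pow_nonneg ⟨2 ^ i, by ring⟩ δ
  have hc3 : ∀ᶠ i : ℕ in atTop, c3 ≤ ((2 ^ (i + 1) : ℕ) : ℝ) := by
    have := (tendsto_natCast_atTop_atTop (R := ℝ)).comp tendsto_two_pow
    exact this.eventually (eventually_ge_atTop c3)
  have hδ : |δ| ≤ 1 := by
    by_contra hδ
    push Not at hδ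
    have e1 := tendsto_two_pow.eventually (eventually_pow |δ| hδ (c2 * C) k)
    obtain ⟨i, hi1, hi2⟩ := (e1.and hc3).exists
    have h3 := (h _ hi2).2
    rw [hev] at h3
    have h4 : (1 : ℝ) ≤ ((2 ^ (i + 1) : ℕ) : ℝ) := by
      exact_mod_cast Nat.one_le_two_pow
    have h5 : (1 : ℝ) ≤ ((2 ^ (i + 1) : ℕ) : ℝ) ^ l := one_le_pow₀ h4
    have h6 : |δ| ^ (2 ^ (i + 1)) ≤ ((2 ^ (i + 1) : ℕ) : ℝ) ^ l * |δ| ^ (2 ^ (i + 1)) := by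
      have : 0 ≤ |δ| ^ (2 ^ (i + 1)) := by positivity
      nlinarith
    have h7 : (d (2 ^ (i + 1)) : ℝ) ≤ C * (((2 ^ (i + 1) : ℕ) : ℝ) + 1) ^ k := by
      exact_mod_cast hu (2 ^ (i + 1))
    have h8 : c2 * (d (2 ^ (i + 1)) : ℝ) ≤ c2 * (C * (((2 ^ (i + 1) : ℕ) : ℝ) + 1) ^ k) := by
      gcongr
    linarith
  have hlarge : ∀ᶠ i : ℕ in atTop, (8 * C' / c1 + C'' : ℝ) < 4 * 2 ^ i := by
    have h3 := tendsto_pow_atTop_atTop_of_one_lt (by norm_num : (1 : ℝ) < 2)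
    have h4 := h3.eventually (eventually_gt_atTop (8 * C' / c1 + C'' : ℝ))
    filter_upwards [h4] with i hi
    have : (0 : ℝ) < 2 ^ i := by positivity
    linarith
  obtain ⟨i, hi1, hi2⟩ := (hlarge.and hc3).exists
  have h3 := (h _ hi2).1
  rw [hev] at h3
  have h4 : (1 : ℝ) ≤ ((2 ^ (i + 1) : ℕ) : ℝ) := by
    exact_mod_cast Nat.one_le_two_pow
  have h5 : ((2 ^ (i + 1) : ℕ) : ℝ) ^ l ≤ ((2 ^ (i + 1) : ℕ) : ℝ) ^ 3 := pow_le_pow_right₀ h4 hll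
  have h6 : |δ| ^ (2 ^ (i + 1)) ≤ 1 := pow_le_one₀ (abs_nonneg _) hδ
  have h7 : ((2 ^ (i + 1) : ℕ) : ℝ) ^ 3 = 8 * 8 ^ i := by
    push_cast
    rw [← pow_mul, show (8 : ℝ) = 2 ^ 3 by norm_num, ← pow_mul, ← pow_add]
    congr 1
    ring
  have h8 : ((2 ^ (i + 1) : ℕ) : ℝ) ^ l * |δ| ^ (2 ^ (i + 1)) ≤ 8 * 8 ^ i := by
    calc ((2 ^ (i + 1) : ℕ) : ℝ) ^ l * |δ| ^ (2 ^ (i + 1))
        ≤ ((2 ^ (i + 1) : ℕ) : ℝ) ^ 3 * 1 := by gcongr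
      _ = 8 * 8 ^ i := by rw [mul_one, h7]
  have h9 : (d (2 ^ (i + 1)) : ℝ) ≤ 8 * 8 ^ i / c1 := by
    rw [le_div_iff₀ h1]
    linarith
  have h10 : (4 * 16 ^ i : ℝ) ≤ C' * d (2 ^ (i + 1)) + C'' * 4 ^ i := by exact_mod_cast hl i
  have h11 : (C' : ℝ) * d (2 ^ (i + 1)) ≤ C' * (8 * 8 ^ i / c1) := by gcongr
  have h12 : (C'' : ℝ) * 4 ^ i ≤ C'' * 8 ^ i := by
    gcongr
    norm_num
  have h13 : (16 : ℝ) ^ i = 2 ^ i * 8 ^ i := by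
    rw [← mul_pow]
    norm_num
  have h14 : (0 : ℝ) < 8 ^ i := by positivity
  have h15 : (4 * 2 ^ i) * 8 ^ i ≤ (8 * C' / c1 + C'' : ℝ) * 8 ^ i := by
    have e : (C' : ℝ) * (8 * 8 ^ i / c1) = (8 * C' / c1) * 8 ^ i := by ring
    rw [e] at h11
    rw [h13] at h10
    linarith
  have h16 := le_of_mul_le_mul_right h15 h14
  linarith

end Pool.Agent.H9.DegGrowth
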