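import Pool.Agent.H9.DegGrowth.Ell

/-!
# Growth of heights along a unipotent orbit
-/

namespace Pool.Agent.H9.DegGrowth

theorem choose_two_le (n : ℕ) : n.choose 2 ≤ n ^ 2 := by
  rw [Nat.choose_two_right]
  calc n * (n - 1) / 2 ≤ n * (n - 1) := Nat.div_le_self _ _
    _ ≤ n * n := by gcongr; omega
    _ = n ^ 2 := by ring

variable {L : Type*} [Field L] [DecidableEq L] {ht : L → ℕ} (H : IsHt ht) {D : L} (h0 : Ok D)
include H h0

theorem qh_pow (P : (W D).Point) (i : ℕ) : qh ht ((2 ^ i : ℕ) • P) = 4 ^ i * qh ht P := by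
  induction i with
  | zero => simp
  | succ i ih =>
    have e : (2 ^ (i + 1) : ℕ) • P = (2 ^ i : ℕ) • P + (2 ^ i : ℕ) • P := by
      rw [← add_nsmul]
      congr 1
      ring
    rw [e, qh_dbl H h0, ih]
    ring

theorem qh_nsmul (P : (W D).Point) : ∃ C, ∀ m : ℕ, qh ht (m • P) ≤ C * m ^ 7 := by
  refine ⟨qh ht P + 27 * hx ht P + 40 * ht D, ?_⟩
  intro m
  induction m using Nat.strong_induction_on with
  | _ m ih =>
    set C := qh ht P + 27 * hx ht P + 40 * ht D with hC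
    rcases Nat.even_or_odd' m with ⟨k, hk | hk⟩
    · by_cases hk0 : k = 0
      · subst hk0
        rw [hk]
        simp [qh_zero]
      · have h1 := ih k (by omega)
        have e : m • P = k • P + k • P := by
          rw [← add_nsmul]
          congr 1
          omega
        rw [e, qh_dbl H h0, hk]
        calc 4 * qh ht (k • P) ≤ 4 * (C * k ^ 7) := by gcongr
          _ ≤ 128 * (C * k ^ 7) := by gcongr; norm_num
          _ = C * (2 * k) ^ 7 := by ring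
    · by_cases hk0 : k = 0
      · subst hk0
        rw [hk]
        simp [hC]
        omega
      · have h1 := ih k (by omega)
        have e : m • P = (k • P + k • P) + P := by
          rw [← add_nsmul, ← succ_nsmul]
          congr 1
          omega
        have e1 := qh_le_hx H h0 ((k • P + k • P) + P)
        have e2 := hx_add H h0 (k • P + k • P) P
        have e3 := hx_le_qh H h0 (k • P + k • P)
        have e4 := qh_dbl H h0 (k • P)
        have e5 : qh ht (m • P) ≤ 108 * qh ht (k • P) + C := by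
          rw [e]
          omega
        have hk1 : 1 ≤ k ^ 7 := Nat.one_le_pow _ _ (by omega)
        calc qh ht (m • P) ≤ 108 * qh ht (k • P) + C := e5
          _ ≤ 108 * (C * k ^ 7) + C * k ^ 7 := by
            have : C ≤ C * k ^ 7 := Nat.le_mul_of_pos_right _ hk1
            omega
          _ ≤ 128 * (C * k ^ 7) := by
            have : 0 ≤ C * k ^ 7 := Nat.zero_le _
            omega
          _ = C * (2 * k) ^ 7 := by ring
          _ ≤ C * m ^ 7 := by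
            gcongr
            omega

theorem comb_upper (P1 P2 P3 : (W D).Point) : ∃ C, ∀ n : ℕ,
    hx ht (P3 + n • P2 + (n.choose 2) • P1) ≤ C * (n + 1) ^ 14 := by
  obtain ⟨C1, h1⟩ := qh_nsmul H h0 P1
  obtain ⟨C2, h2⟩ := qh_nsmul H h0 P2
  refine ⟨81 * hx ht P3 + 81 * C2 + 9 * C1 + 200 * ht D, ?_⟩
  intro n
  have e1 := hx_add H h0 (P3 + n • P2) ((n.choose 2) • P1)
  have e2 := hx_add H h0 P3 (n • P2)
  have e3 := hx_le_qh H h0 (n • P2)
  have e4 := hx_le_qh H h0 ((n.choose 2) • P1)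
  have e5 := h1 (n.choose 2)
  have e6 := h2 n
  have e7 : (n.choose 2) ^ 7 ≤ (n + 1) ^ 14 := by
    calc (n.choose 2) ^ 7 ≤ (n ^ 2) ^ 7 := by
          gcongr
          exact choose_two_le n
      _ = n ^ 14 := by ring
      _ ≤ (n + 1) ^ 14 := by gcongr; omega
  have e8 : n ^ 7 ≤ (n + 1) ^ 14 := by
    calc n ^ 7 ≤ (n + 1) ^ 7 := by gcongr; omega
      _ ≤ (n + 1) ^ 14 := Nat.pow_le_pow_right (by omega) (by norm_num)
  have e9 : 1 ≤ (n + 1) ^ 14 := Nat.one_le_pow _ _ (by omega)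
  have e10 : C1 * (n.choose 2) ^ 7 ≤ C1 * (n + 1) ^ 14 := by gcongr
  have e11 : C2 * n ^ 7 ≤ C2 * (n + 1) ^ 14 := by gcongr
  have e12 : hx ht P3 ≤ hx ht P3 * (n + 1) ^ 14 := Nat.le_mul_of_pos_right _ e9
  have e13 : ht D ≤ ht D * (n + 1) ^ 14 := Nat.le_mul_of_pos_right _ e9
  calc hx ht (P3 + n • P2 + (n.choose 2) • P1)
      ≤ 81 * (hx ht P3 * (n + 1) ^ 14) + 81 * (C2 * (n + 1) ^ 14) + 9 * (C1 * (n + 1) ^ 14)
        + 200 * (ht D * (n + 1) ^ 14) := by omega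
    _ = _ := by ring

theorem comb2_upper (P1 P2 : (W D).Point) : ∃ C, ∀ n : ℕ,
    hx ht (P2 + n • P1) ≤ C * (n + 1) ^ 14 := by
  obtain ⟨C1, h1⟩ := qh_nsmul H h0 P1
  refine ⟨9 * hx ht P2 + 9 * C1 + 13 * ht D, ?_⟩
  intro n
  have e2 := hx_add H h0 P2 (n • P1)
  have e3 := hx_le_qh H h0 (n • P1)
  have e6 := h1 n
  have e8 : n ^ 7 ≤ (n + 1) ^ 14 := by
    calc n ^ 7 ≤ (n + 1) ^ 7 := by gcongr; omega
      _ ≤ (n + 1) ^ 14 := Nat.pow_le_pow_right (by omega) (by norm_num)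
  have e9 : 1 ≤ (n + 1) ^ 14 := Nat.one_le_pow _ _ (by omega)
  have e10 : C1 * n ^ 7 ≤ C1 * (n + 1) ^ 14 := by gcongr
  have e12 : hx ht P2 ≤ hx ht P2 * (n + 1) ^ 14 := Nat.le_mul_of_pos_right _ e9
  have e13 : ht D ≤ ht D * (n + 1) ^ 14 := Nat.le_mul_of_pos_right _ e9
  calc hx ht (P2 + n • P1)
      ≤ 9 * (hx ht P2 * (n + 1) ^ 14) + 9 * (C1 * (n + 1) ^ 14)
        + 13 * (ht D * (n + 1) ^ 14) := by omega
    _ = _ := by ring

theorem comb_lower (P1 P2 P3 : (W D).Point) (hP1 : 1 ≤ qh ht P1) : ∃ C, ∀ i : ℕ,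
    4 * 16 ^ i ≤ 27 * hx ht (P3 + (2 ^ (i + 1) : ℕ) • P2 + ((2 ^ (i + 1) : ℕ).choose 2) • P1)
      + C * 4 ^ i := by
  refine ⟨27 * (81 * hx ht P3 + 324 * qh ht P2 + 9 * qh ht P1 + 200 * ht D) + 13 * ht D, ?_⟩
  intro i
  set U := P3 + (2 ^ (i + 1) : ℕ) • P2 + ((2 ^ (i + 1) : ℕ).choose 2) • P1 with hU
  set B := P3 + (2 ^ (i + 1) : ℕ) • P2 + -((2 ^ i : ℕ) • P1) with hB
  have hch : (2 ^ (i + 1) : ℕ).choose 2 + 2 ^ i = 2 ^ (2 * i + 1) := by
    rw [Nat.choose_two_right]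
    have e : 2 ^ (i + 1) * (2 ^ (i + 1) - 1) / 2 = 2 ^ i * (2 ^ (i + 1) - 1) := by
      have : 2 ^ (i + 1) * (2 ^ (i + 1) - 1) = (2 ^ i * (2 ^ (i + 1) - 1)) * 2 := by ring
      rw [this, Nat.mul_div_cancel _ (by norm_num)]
    rw [e]
    have h1 : 1 ≤ 2 ^ (i + 1) := Nat.one_le_two_pow
    have h2 : 2 ^ i * (2 ^ (i + 1) - 1) + 2 ^ i = 2 ^ i * ((2 ^ (i + 1) - 1) + 1) := by ring
    rw [h2, Nat.sub_add_cancel h1, ← pow_add]
    congr 1
    omega
  have hUB : U + -B = (2 ^ (2 * i + 1) : ℕ) • P1 := by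
    rw [hU, hB, ← hch, add_nsmul]
    abel
  have q1 := qh_pow H h0 P1 (2 * i + 1)
  rw [← hUB] at q1
  have q2 : 4 ^ (2 * i + 1) ≤ qh ht (U + -B) := by
    rw [q1]
    exact Nat.le_mul_of_pos_right _ hP1
  have q3 := qh_le_hx H h0 (U + -B)
  have q4 := hx_add H h0 U (-B)
  rw [hx_neg H h0] at q4
  have b1 := hx_add H h0 (P3 + (2 ^ (i + 1) : ℕ) • P2) (-((2 ^ i : ℕ) • P1))
  rw [hx_neg H h0, ← hB] at b1
  have b2 := hx_add H h0 P3 ((2 ^ (i + 1) : ℕ) • P2)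
  have b3 := hx_le_qh H h0 ((2 ^ (i + 1) : ℕ) • P2)
  have b4 := hx_le_qh H h0 ((2 ^ i : ℕ) • P1)
  rw [qh_pow H h0] at b3 b4
  have h41 : 1 ≤ 4 ^ i := Nat.one_le_pow _ _ (by norm_num)
  have e12 : hx ht P3 ≤ hx ht P3 * 4 ^ i := Nat.le_mul_of_pos_right _ h41
  have e13 : ht D ≤ ht D * 4 ^ i := Nat.le_mul_of_pos_right _ h41
  have e14 : 4 ^ (i + 1) * qh ht P2 = 4 * (qh ht P2 * 4 ^ i) := by ring
  have e15 : 4 ^ i * qh ht P1 = qh ht P1 * 4 ^ i := by ring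
  have e16 : 4 ^ (2 * i + 1) = 4 * 16 ^ i := by
    rw [pow_succ, pow_mul]
    norm_num
    ring
  rw [e14] at b3
  rw [e15] at b4
  rw [e16] at q2
  calc 4 * 16 ^ i ≤ 27 * hx ht U + (27 * (81 * (hx ht P3 * 4 ^ i) + 324 * (qh ht P2 * 4 ^ i)
        + 9 * (qh ht P1 * 4 ^ i) + 200 * (ht D * 4 ^ i)) + 13 * (ht D * 4 ^ i)) := by omega
    _ = _ := by ring

end Pool.Agent.H9.DegGrowth
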