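import Pool.Agent.H9.DegGrowth.Spec
import Pool.Agent.H9.DegGrowth.Growth

/-!
# The concrete points
-/

namespace Pool.Agent.H9.DegGrowth

open MvPolynomial

variable (K : Type) [Field K] [CharZero K]

theorem xi_ne : xi K ≠ 0 := v_xi.ne_zero (by norm_num)
theorem DD_ne : DD K ≠ 0 := v_DD.ne_zero (by norm_num)
theorem bb_ne : bb K ≠ 0 := v_bb.ne_zero (by norm_num)
theorem aa_ne : aa K ≠ 0 := v_aa.ne_zero (by norm_num)
theorem dd_ne : dd K ≠ 0 := v_dd.ne_zero (by norm_num)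
theorem tau_ne : tau K ≠ 0 := v_tau.ne_zero (by norm_num)
theorem pp_ne : pp K ≠ 1 := v_pp.ne Sp.one (by norm_num)
theorem qq_ne : qq K ≠ pp K := v_qq.ne v_pp (by norm_num)
theorem pp'_ne : pp' K ≠ 1 := v_pp'.ne Sp.one (by norm_num)
theorem qq'_ne : qq' K ≠ pp K := v_qq'.ne v_pp (by norm_num)
theorem t2'_ne : t2' K ≠ 1 := v_t2'.ne Sp.one (by norm_num)
theorem t2'_ne' : t2' K ≠ -1 := v_t2'.ne (Sp.one.neg) (by norm_num)
theorem t3'_ne : t3' K ≠ 1 := v_t3'.ne Sp.one (by norm_num)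
theorem t3'_ne' : t3' K ≠ t2' K := v_t3'.ne v_t2' (by norm_num)

theorem two_ne : (2 : LL K) ≠ 0 := (Sp.two (a := pt1 K)).ne_zero (by norm_num)
theorem three_ne : (3 : LL K) ≠ 0 := by
  have := (Sp.natCast (K := K) (a := pt1 K) 3).ne_zero (by norm_num)
  simpa using this

theorem okD : Ok (DD K) := ⟨two_ne K, three_ne K, DD_ne K⟩

theorem conic : aa K * (1 - t2 K ^ 2) = bb K * (1 - t3 K ^ 2) := by
  unfold t2 t3 tau
  have h := dd_ne K
  field_simp
  unfold dd
  ring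

theorem xi_bb : xi K * bb K = 1 - t2 K ^ 2 := by
  unfold xi
  rw [div_mul_cancel₀ _ (bb_ne K)]

theorem xi_aa : xi K * aa K = 1 - t3 K ^ 2 := by
  have h := conic K
  rw [← xi_bb] at h
  apply mul_left_cancel₀ (bb_ne K)
  linear_combination h

theorem e1 : xi K ^ 2 = xi K ^ 3 + DD K := by
  unfold DD
  ring

theorem e2 : (t2 K * xi K) ^ 2 = (pp K * xi K) ^ 3 + DD K := by
  have h := xi_bb K
  unfold bb at h
  unfold DD
  linear_combination (xi K ^ 2) * h

theorem e3 : (t3 K * xi K) ^ 2 = (qq K * xi K) ^ 3 + DD K := by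
  have h := xi_aa K
  unfold aa at h
  unfold DD
  linear_combination (xi K ^ 2) * h

theorem ne12 : pp K * xi K ≠ xi K := by
  intro h
  apply pp_ne K
  apply mul_right_cancel₀ (xi_ne K)
  rw [one_mul]
  exact h

theorem ne23 : qq K * xi K ≠ pp K * xi K := by
  intro h
  exact qq_ne K (mul_right_cancel₀ (xi_ne K) h)

open Classical in
theorem add12 : ∃ h, mk (okD K) (pp K * xi K) (t2 K * xi K) (e2 K) +
    mk (okD K) (xi K) (xi K) (e1 K) = mk (okD K) (x2' K) (y2' K) h :=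
  mk_add (okD K) (e2 K) (e1 K) (ne12 K)

open Classical in
theorem add23 : ∃ h, mk (okD K) (qq K * xi K) (t3 K * xi K) (e3 K) +
    mk (okD K) (pp K * xi K) (t2 K * xi K) (e2 K) = mk (okD K) (x3' K) (y3' K) h :=
  mk_add (okD K) (e3 K) (e2 K) (ne23 K)

theorem e2' : y2' K ^ 2 = x2' K ^ 3 + DD K := (add12 K).1

theorem e3' : y3' K ^ 2 = x3' K ^ 3 + DD K := (add23 K).1

theorem x2'_eq : x2' K = pp' K * xi K := by
  unfold pp'
  rw [div_mul_cancel₀ _ (xi_ne K)]

theorem y2'_eq : y2' K = t2' K * xi K := by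
  unfold t2'
  rw [div_mul_cancel₀ _ (xi_ne K)]

theorem x3'_eq : x3' K = qq' K * xi K := by
  unfold qq'
  rw [div_mul_cancel₀ _ (xi_ne K)]

theorem y3'_eq : y3' K = t3' K * xi K := by
  unfold t3'
  rw [div_mul_cancel₀ _ (xi_ne K)]

/-- `ξ (1 - p'^3) = 1 - t_2'^2` -/
theorem xi_bb' : xi K * (1 - pp' K ^ 3) = 1 - t2' K ^ 2 := by
  have h := e2' K
  rw [x2'_eq, y2'_eq] at h
  unfold DD at h
  apply mul_left_cancel₀ (pow_ne_zero 2 (xi_ne K))
  linear_combination h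

theorem xi_aa' : xi K * (1 - qq' K ^ 3) = 1 - t3' K ^ 2 := by
  have h := e3' K
  rw [x3'_eq, y3'_eq] at h
  unfold DD at h
  apply mul_left_cancel₀ (pow_ne_zero 2 (xi_ne K))
  linear_combination h

theorem mm'_eq : t3' K - 1 = mm' K * (t2' K - 1) := by
  unfold mm'
  rw [div_mul_cancel₀ _ (sub_ne_zero.2 (t2'_ne K))]

theorem mm'_ne : mm' K ≠ 0 := div_ne_zero (sub_ne_zero.2 (t3'_ne K)) (sub_ne_zero.2 (t2'_ne K))

theorem mm'_ne' : mm' K ≠ 1 := by
  intro h
  have := mm'_eq K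
  rw [h, one_mul] at this
  exact t3'_ne' K (by linear_combination this)

theorem bb'_ne : 1 - pp' K ^ 3 ≠ 0 := by
  intro h
  have h1 := xi_bb' K
  rw [h, mul_zero] at h1
  have : (t2' K - 1) * (t2' K - -1) = 0 := by linear_combination h1
  rcases mul_eq_zero.1 this with h2 | h2
  · exact t2'_ne K (sub_eq_zero.1 h2)
  · exact t2'_ne' K (sub_eq_zero.1 h2)

/-- The recovery of `t_2'` from `p', q', m'`. -/
theorem t2'_rec : t2' K * ((1 - qq' K ^ 3) - (1 - pp' K ^ 3) * mm' K ^ 2)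
    = (1 - pp' K ^ 3) * mm' K * (2 - mm' K) - (1 - qq' K ^ 3) := by
  have h1 := xi_bb' K
  have h2 := xi_aa' K
  have h3 := mm'_eq K
  have h4 : (1 - qq' K ^ 3) * (1 - t2' K ^ 2) = (1 - pp' K ^ 3) * (1 - t3' K ^ 2) := by
    rw [← h1, ← h2]
    ring
  apply mul_left_cancel₀ (sub_ne_zero.2 (t2'_ne K))
  have h5 : t3' K = 1 + mm' K * (t2' K - 1) := by linear_combination h3
  rw [h5] at h4
  linear_combination -h4

theorem dd'_ne : (1 - qq' K ^ 3) - (1 - pp' K ^ 3) * mm' K ^ 2 ≠ 0 := by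
  intro h
  have h1 := t2'_rec K
  rw [h, mul_zero] at h1
  have h2 : (1 - pp' K ^ 3) * (mm' K * (2 * (1 - mm' K))) = 0 := by linear_combination h - h1
  rcases mul_eq_zero.1 h2 with h3 | h3
  · exact bb'_ne K h3
  · rcases mul_eq_zero.1 h3 with h4 | h4
    · exact mm'_ne K h4
    · rcases mul_eq_zero.1 h4 with h5 | h5
      · exact two_ne K h5
      · exact mm'_ne' K (sub_eq_zero.1 h5).symm

/-- Recovery of the old point: `P_2 = P_2' - P_1`. -/
theorem rec2 : pp K * xi K = ((y2' K + xi K) / (x2' K - xi K)) ^ 2 - x2' K - xi K ∧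
    t2 K * xi K = -((y2' K + xi K) / (x2' K - xi K) * (pp K * xi K - x2' K) + y2' K) := by
  classical
  obtain ⟨h, hs⟩ := add12 K
  have hne : x2' K ≠ xi K := by
    rw [x2'_eq]
    intro h
    apply pp'_ne K
    apply mul_right_cancel₀ (xi_ne K)
    rw [one_mul]
    exact h
  obtain ⟨hn, hneg⟩ := neg_mk (okD K) (e1 K)
  obtain ⟨h3, h4⟩ := mk_add (okD K) h hn hne
  rw [← hs, ← hneg, add_neg_cancel_right] at h4
  unfold mk at h4
  rw [WeierstrassCurve.Affine.Point.some.injEq] at h4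
  obtain ⟨h5, h6⟩ := h4
  rw [sub_neg_eq_add] at h5 h6
  refine ⟨h5, ?_⟩
  rw [h6, ← h5]

/-- Recovery of the old point: `P_3 = P_3' - P_2`. -/
theorem rec3 : qq K * xi K = ((y3' K + t2 K * xi K) / (x3' K - pp K * xi K)) ^ 2 - x3' K
      - pp K * xi K ∧
    t3 K * xi K = -((y3' K + t2 K * xi K) / (x3' K - pp K * xi K) * (qq K * xi K - x3' K)
      + y3' K) := by
  classical
  obtain ⟨h, hs⟩ := add23 K
  have hne : x3' K ≠ pp K * xi K := by
    rw [x3'_eq]
    intro h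
    exact qq'_ne K (mul_right_cancel₀ (xi_ne K) h)
  obtain ⟨hn, hneg⟩ := neg_mk (okD K) (e2 K)
  obtain ⟨h3, h4⟩ := mk_add (okD K) h hn hne
  rw [← hs, ← hneg, add_neg_cancel_right] at h4
  unfold mk at h4
  rw [WeierstrassCurve.Affine.Point.some.injEq] at h4
  obtain ⟨h5, h6⟩ := h4
  rw [sub_neg_eq_add] at h5 h6
  refine ⟨h5, ?_⟩
  rw [h6, ← h5]

theorem mm_rec : mm K = (t3 K - 1) / (t2 K - 1) := by
  unfold t2 t3
  have := tau_ne K
  rw [add_sub_cancel_left, add_sub_cancel_left, mul_div_cancel_right₀ _ this]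

/-- The normalised height of `P_1` is positive. -/
theorem qh_P1 : 1 ≤ ht (xi K ^ 3 / DD K) := by
  by_contra h
  have h0 : ht (xi K ^ 3 / DD K) = 0 := by omega
  obtain ⟨a, b, hb, ha, hb', hab⟩ := rep_ht (xi K ^ 3 / DD K)
  rw [h0] at ha hb'
  have ha' := totalDegree_eq_zero_iff_eq_C.1 (Nat.le_zero.1 ha)
  have hb'' := totalDegree_eq_zero_iff_eq_C.1 (Nat.le_zero.1 hb')
  set α := coeff 0 a
  set β := coeff 0 b
  have hβ : β ≠ 0 := by
    intro h
    rw [h, C_0] at hb''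
    exact hb hb''
  rw [ha', hb''] at hab
  have hx := xi_ne K
  have hx1 : 1 - xi K ≠ 0 := by
    intro h
    apply DD_ne K
    unfold DD
    rw [h, mul_zero]
  have h1 : xi K * algebraMap (R K) (LL K) (C β) = algebraMap (R K) (LL K) (C α) * (1 - xi K) := by
    rw [← hab]
    unfold DD
    field_simp
  have s1 := ((v_xi (K := K)).mul (Sp.const β)).unique
    (h1 ▸ (Sp.const α).mul (Sp.one.sub (v_xi (K := K))))
  have s2 := ((w_xi (K := K)).mul (Sp.const β)).unique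
    (h1 ▸ (Sp.const α).mul (Sp.one.sub (w_xi (K := K))))
  apply hβ
  have e1 : 24 * β = -23 * α := by linear_combination s1
  have e2 : 264 * β = 97 * α := by linear_combination 361 * s2
  have e3 : (97 * 24 + 264 * 23 : K) * β = 0 := by linear_combination 97 * e1 + 23 * e2
  rcases mul_eq_zero.1 e3 with h | h
  · norm_num at h
  · exact h

end Pool.Agent.H9.DegGrowth
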