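import Mathlib

/-!
# Degree growth of rational self-maps of projective space: definitions
-/

namespace Pool.Agent.H9.DegGrowth

open MvPolynomial Filter Topology

/-- The forms `f_0, …, f_N`, homogeneous of one common degree `d`, define a dominant rational
self-map `f = [f_0 : … : f_N]` of `P^N` over `K`: they satisfy no nontrivial polynomial relation.
(A common factor of the forms is allowed here.) -/
def IsDominantMap {K : Type} [Field K] {N : ℕ} (d : ℕ)
    (f : Fin (N + 1) → MvPolynomial (Fin (N + 1)) K) : Prop :=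
  (∀ i, (f i).IsHomogeneous d) ∧ ∀ P : MvPolynomial (Fin (N + 1)) K, aeval f P = 0 → P = 0

/-- Forms that define the iterate `f^n`, obtained by substitution, without removing common
factors. -/
noncomputable def iter {K : Type} [Field K] {N : ℕ}
    (f : Fin (N + 1) → MvPolynomial (Fin (N + 1)) K) :
    ℕ → Fin (N + 1) → MvPolynomial (Fin (N + 1)) K
  | 0 => X
  | n + 1 => fun i => aeval (iter f n) (f i)

/-- The degree of `f^n`: the least degree of forms `g_0, …, g_N` (not all zero) that define the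
same rational map as the forms `iter f n`. The minimum is attained when the common factors are
removed. -/
noncomputable def degIter {K : Type} [Field K] {N : ℕ}
    (f : Fin (N + 1) → MvPolynomial (Fin (N + 1)) K) (n : ℕ) : ℕ :=
  sInf {e | ∃ g : Fin (N + 1) → MvPolynomial (Fin (N + 1)) K,
    (∀ i, (g i).IsHomogeneous e) ∧ (∃ i, g i ≠ 0) ∧ ∀ i j, g i * iter f n j = g j * iter f n i}

/-- The relation `F(n) ≍ G(n)`. -/
def Comparable (F G : ℕ → ℝ) : Prop :=
  ∃ c₁ c₂ c₃ : ℝ, 0 < c₁ ∧ 0 < c₂ ∧ 0 < c₃ ∧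
    ∀ n : ℕ, c₃ ≤ n → c₁ * F n ≤ G n ∧ G n ≤ c₂ * F n

/-- The assertion of Q1: for every `N ≥ 1` and every dominant rational self-map `f` of `P^N` over
a field there is an integer `0 ≤ l ≤ N` with `deg(f^n) ≍ n^l δ^n`, where `δ` is the dynamical
degree of `f`. -/
def DegreeGrowthConjecture : Prop :=
  ∀ (K : Type) [Field K] (N : ℕ), 1 ≤ N → ∀ (d : ℕ)
    (f : Fin (N + 1) → MvPolynomial (Fin (N + 1)) K), IsDominantMap d f →
    ∃ l : ℕ, l ≤ N ∧ ∃ δ : ℝ,
      Tendsto (fun n : ℕ => (degIter f n : ℝ) ^ (1 / (n : ℝ))) atTop (𝓝 δ) ∧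
      Comparable (fun n => degIter f n) (fun n => (n : ℝ) ^ l * δ ^ n)

end Pool.Agent.H9.DegGrowth
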