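import Mathlib

/-!
# Heights of points on the curves `y ^ 2 = x ^ 3 + D`
-/

namespace Pool.Agent.H9.DegGrowth

variable {L : Type*} [Field L]

/-- An abstract height function (a degree) on a field of characteristic different from 2 and 3. -/
structure IsHt (ht : L → ℕ) : Prop where
  two : (2 : L) ≠ 0
  three : (3 : L) ≠ 0
  add : ∀ a b, ht (a + b) ≤ ht a + ht b
  mul : ∀ a b, ht (a * b) ≤ ht a + ht b
  neg : ∀ a, ht (-a) = ht a
  inv : ∀ a, ht a⁻¹ = ht a
  num : ∀ n : ℕ, ht (n : L) = 0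
  sq : ∀ a, ht a ≤ ht (a ^ 2)
  cube : ∀ a, ht a ≤ ht (a ^ 3)
  dbl : ∀ a, a + 1 ≠ 0 → ht (a * (a - 8) ^ 3 / (64 * (a + 1) ^ 3)) = 4 * ht a

namespace IsHt

variable {ht : L → ℕ} (H : IsHt ht)
include H

theorem sub (a b : L) : ht (a - b) ≤ ht a + ht b := by
  rw [sub_eq_add_neg]
  exact (H.add a (-b)).trans (by rw [H.neg])

theorem div (a b : L) : ht (a / b) ≤ ht a + ht b := by
  rw [div_eq_mul_inv]
  exact (H.mul a b⁻¹).trans (by rw [H.inv])

theorem pow (a : L) (n : ℕ) : ht (a ^ n) ≤ n * ht a := by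
  induction n with
  | zero =>
    have := H.num 1
    simp at this
    simp [this]
  | succ n ih =>
    rw [pow_succ]
    calc ht (a ^ n * a) ≤ ht (a ^ n) + ht a := H.mul _ _
      _ ≤ n * ht a + ht a := by gcongr
      _ = (n + 1) * ht a := by ring

theorem one : ht (1 : L) = 0 := by
  have := H.num 1
  simpa using this

theorem zero : ht (0 : L) = 0 := by
  have := H.num 0
  simpa using this

end IsHt

/-- The curve `y ^ 2 = x ^ 3 + D`. -/
def W (D : L) : WeierstrassCurve.Affine L := ⟨0, 0, 0, 0, D⟩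

open WeierstrassCurve.Affine

theorem W_equation (D x y : L) : (W D).Equation x y ↔ y ^ 2 = x ^ 3 + D := by
  rw [equation_iff]
  simp [W]

theorem W_nonsingular {D : L} (h2 : (2 : L) ≠ 0) (h3 : (3 : L) ≠ 0) (hD : D ≠ 0) {x y : L}
    (h : y ^ 2 = x ^ 3 + D) : (W D).Nonsingular x y := by
  rw [nonsingular_iff]
  refine ⟨(W_equation D x y).2 h, ?_⟩
  by_cases hy : y = 0
  · left
    have hx : x ≠ 0 := by
      rintro rfl
      rw [hy] at h
      apply hD
      simpa using h.symm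
    simp [W]
    exact ⟨h3, hx⟩
  · right
    simp [W]
    intro h
    apply hy
    have : 2 * y = 0 := by linear_combination h
    rcases mul_eq_zero.1 this with h | h
    · exact absurd h h2
    · exact h

/-- hypotheses on the field and on `D` -/
structure Ok (D : L) : Prop where
  two : (2 : L) ≠ 0
  three : (3 : L) ≠ 0
  D : D ≠ 0

/-- The point with given coordinates. -/
def mk {D : L} (h0 : Ok D) (x y : L) (h : y ^ 2 = x ^ 3 + D) : (W D).Point :=
  Point.some x y (W_nonsingular h0.two h0.three h0.D h)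

theorem exists_mk {D : L} (h0 : Ok D) (P : (W D).Point) :
    P = 0 ∨ ∃ x y h, P = mk h0 x y h := by
  cases P with
  | zero => exact Or.inl rfl
  | some x y h =>
    right
    exact ⟨x, y, (W_equation D x y).1 h.1, rfl⟩

variable [DecidableEq L]

theorem mk_congr {D : L} (h0 : Ok D) {x y x' y' : L} (h : y ^ 2 = x ^ 3 + D)
    (h' : y' ^ 2 = x' ^ 3 + D) (hx : x = x') (hy : y = y') : mk h0 x y h = mk h0 x' y' h' := by
  subst hx hy
  rfl

theorem mk_add {D : L} (h0 : Ok D) {x1 y1 x2 y2 : L} (h1 : y1 ^ 2 = x1 ^ 3 + D)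
    (h2 : y2 ^ 2 = x2 ^ 3 + D) (hx : x1 ≠ x2) :
    ∃ h3, mk h0 x1 y1 h1 + mk h0 x2 y2 h2 =
      mk h0 (((y1 - y2) / (x1 - x2)) ^ 2 - x1 - x2)
        (-((y1 - y2) / (x1 - x2) * ((((y1 - y2) / (x1 - x2)) ^ 2 - x1 - x2) - x1) + y1)) h3 := by
  have hxy : ¬ (x1 = x2 ∧ y1 = (W D).negY x2 y2) := fun h => hx h.1
  have e := Point.add_some hxy (h₁ := W_nonsingular h0.two h0.three h0.D h1)
    (h₂ := W_nonsingular h0.two h0.three h0.D h2)
  have hs : (W D).slope x1 x2 y1 y2 = (y1 - y2) / (x1 - x2) := slope_of_X_ne hx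
  have eX : (W D).addX x1 x2 ((W D).slope x1 x2 y1 y2)
      = ((y1 - y2) / (x1 - x2)) ^ 2 - x1 - x2 := by
    rw [hs]
    simp [addX, W]
  have eY : (W D).addY x1 x2 y1 ((W D).slope x1 x2 y1 y2)
      = -((y1 - y2) / (x1 - x2) * ((((y1 - y2) / (x1 - x2)) ^ 2 - x1 - x2) - x1) + y1) := by
    rw [hs]
    simp [addY, negAddY, negY, addX, W]
  have h3 := (nonsingular_add (W_nonsingular h0.two h0.three h0.D h1)
    (W_nonsingular h0.two h0.three h0.D h2) hxy).1
  rw [W_equation, eX, eY] at h3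
  refine ⟨h3, ?_⟩
  unfold mk
  rw [e]
  congr 1

theorem mk_dbl {D : L} (h0 : Ok D) {x y : L} (h : y ^ 2 = x ^ 3 + D) (hy : y ≠ 0) :
    ∃ y3 h3, mk h0 x y h + mk h0 x y h =
      mk h0 ((3 * x ^ 2 / (2 * y)) ^ 2 - x - x) y3 h3 := by
  have hneg : y ≠ (W D).negY x y := by
    simp [negY, W]
    intro h1
    apply hy
    have : 2 * y = 0 := by linear_combination h1
    rcases mul_eq_zero.1 this with h | h
    · exact absurd h h0.two
    · exact h
  have hxy : ¬ (x = x ∧ y = (W D).negY x y) := fun h => hneg h.2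
  have e := Point.add_some hxy (h₁ := W_nonsingular h0.two h0.three h0.D h)
    (h₂ := W_nonsingular h0.two h0.three h0.D h)
  have hs : (W D).slope x x y y = 3 * x ^ 2 / (2 * y) := by
    rw [slope_of_Y_ne rfl hneg]
    simp [negY, W]
    ring
  have eX : (W D).addX x x ((W D).slope x x y y) = (3 * x ^ 2 / (2 * y)) ^ 2 - x - x := by
    rw [hs]
    simp [addX, W]
  have h3 := (nonsingular_add (W_nonsingular h0.two h0.three h0.D h)
    (W_nonsingular h0.two h0.three h0.D h) hxy).1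
  rw [W_equation, eX] at h3
  refine ⟨_, h3, ?_⟩
  unfold mk
  rw [e]
  congr 1

theorem mk_add_neg {D : L} (h0 : Ok D) {x1 y1 x2 y2 : L} (h1 : y1 ^ 2 = x1 ^ 3 + D)
    (h2 : y2 ^ 2 = x2 ^ 3 + D) (hx : x1 = x2) (hy : y1 = -y2) :
    mk h0 x1 y1 h1 + mk h0 x2 y2 h2 = 0 := by
  apply Point.add_of_Y_eq hx
  simp [negY, W, hy]

theorem neg_mk {D : L} (h0 : Ok D) {x y : L} (h : y ^ 2 = x ^ 3 + D) :
    ∃ h', -mk h0 x y h = mk h0 x (-y) h' := by
  refine ⟨by linear_combination h, ?_⟩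
  unfold mk
  rw [Point.neg_some]
  congr 1
  simp [negY, W]

/-- The height of the x-coordinate of a point. -/
def hx (ht : L → ℕ) {D : L} : (W D).Point → ℕ
  | .zero => 0
  | .some x _ _ => ht x

/-- The normalised height. -/
def qh (ht : L → ℕ) {D : L} : (W D).Point → ℕ
  | .zero => 0
  | .some x _ _ => ht (x ^ 3 / D)

theorem hx_mk (ht : L → ℕ) {D : L} (h0 : Ok D) {x y : L} (h : y ^ 2 = x ^ 3 + D) :
    hx ht (mk h0 x y h) = ht x := rfl

theorem qh_mk (ht : L → ℕ) {D : L} (h0 : Ok D) {x y : L} (h : y ^ 2 = x ^ 3 + D) :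
    qh ht (mk h0 x y h) = ht (x ^ 3 / D) := rfl

theorem hx_zero (ht : L → ℕ) {D : L} : hx ht (0 : (W D).Point) = 0 := rfl

theorem qh_zero (ht : L → ℕ) {D : L} : qh ht (0 : (W D).Point) = 0 := rfl

section

variable {ht : L → ℕ} (H : IsHt ht) {D : L} (h0 : Ok D)
include H h0

theorem ht_y {x y : L} (h : y ^ 2 = x ^ 3 + D) : ht y ≤ 3 * ht x + ht D := by
  calc ht y ≤ ht (y ^ 2) := H.sq y
    _ = ht (x ^ 3 + D) := by rw [h]
    _ ≤ ht (x ^ 3) + ht D := H.add _ _
    _ ≤ 3 * ht x + ht D := by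
      gcongr
      exact H.pow x 3

theorem hx_le_qh (P : (W D).Point) : hx ht P ≤ qh ht P + ht D := by
  rcases exists_mk h0 P with rfl | ⟨x, y, h, rfl⟩
  · rw [hx_zero]
    exact Nat.zero_le _
  · rw [hx_mk, qh_mk]
    have e : x ^ 3 = x ^ 3 / D * D := by
      field_simp [h0.D]
    calc ht x ≤ ht (x ^ 3) := H.cube x
      _ = ht (x ^ 3 / D * D) := by rw [← e]
      _ ≤ _ := H.mul _ _

theorem qh_le_hx (P : (W D).Point) : qh ht P ≤ 3 * hx ht P + ht D := by
  rcases exists_mk h0 P with rfl | ⟨x, y, h, rfl⟩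
  · rw [qh_zero]
    exact Nat.zero_le _
  · rw [hx_mk, qh_mk]
    calc ht (x ^ 3 / D) ≤ ht (x ^ 3) + ht D := H.div _ _
      _ ≤ _ := by
        gcongr
        exact H.pow x 3

theorem hx_neg (P : (W D).Point) : hx ht (-P) = hx ht P := by
  rcases exists_mk h0 P with rfl | ⟨x, y, h, rfl⟩
  · rfl
  · obtain ⟨h', e⟩ := neg_mk h0 h
    rw [e, hx_mk, hx_mk]

theorem hx_add (P R : (W D).Point) :
    hx ht (P + R) ≤ 9 * (hx ht P + hx ht R) + 4 * ht D := by
  rcases exists_mk h0 P with rfl | ⟨x1, y1, h1, rfl⟩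
  · rw [zero_add, hx_zero]
    omega
  rcases exists_mk h0 R with rfl | ⟨x2, y2, h2, rfl⟩
  · rw [add_zero, hx_zero]
    omega
  have b1 := ht_y H h0 h1
  have b2 := ht_y H h0 h2
  have key : ∀ s : L, ht s ≤ 4 * (ht x1 + ht x2) + 2 * ht D →
      ht (s ^ 2 - x1 - x2) ≤ 9 * (ht x1 + ht x2) + 4 * ht D := by
    intro s hs
    have e1 := H.sub (s ^ 2 - x1) x2
    have e2 := H.sub (s ^ 2) x1
    have e3 := H.pow s 2
    omega
  by_cases hx : x1 = x2
  · subst hx
    by_cases hy : y1 = -y2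
    · rw [mk_add_neg h0 h1 h2 rfl hy, hx_zero]
      exact Nat.zero_le _
    · have hyy : y1 = y2 := by
        have : (y1 - y2) * (y1 + y2) = 0 := by linear_combination h1 - h2
        rcases mul_eq_zero.1 this with h | h
        · exact sub_eq_zero.1 h
        · exact absurd (eq_neg_of_add_eq_zero_left h) hy
      subst hyy
      have hy0 : y1 ≠ 0 := by
        rintro rfl
        exact hy (by simp)
      obtain ⟨y3, h3, e⟩ := mk_dbl h0 h1 hy0
      rw [e, hx_mk, hx_mk]
      apply key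
      have e1 := H.div (3 * x1 ^ 2) (2 * y1)
      have e2 := H.mul 3 (x1 ^ 2)
      have e3 := H.mul 2 y1
      have e4 := H.pow x1 2
      have e5 : ht (3 : L) = 0 := by simpa using H.num 3
      have e6 : ht (2 : L) = 0 := by simpa using H.num 2
      omega
  · obtain ⟨h3, e⟩ := mk_add h0 h1 h2 hx
    rw [e, hx_mk, hx_mk, hx_mk]
    apply key
    have e1 := H.div (y1 - y2) (x1 - x2)
    have e2 := H.sub y1 y2
    have e3 := H.sub x1 x2
    omega

theorem qh_dbl (P : (W D).Point) : qh ht (P + P) = 4 * qh ht P := by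
  rcases exists_mk h0 P with rfl | ⟨x, y, h, rfl⟩
  · rw [zero_add, qh_zero]
  · by_cases hy : y = 0
    · subst hy
      rw [mk_add_neg h0 h h rfl (by simp), qh_zero, qh_mk]
      have : x ^ 3 / D = -1 := by
        have h0' := h0.D
        field_simp
        linear_combination -h
      rw [this, H.neg, H.one]
    · obtain ⟨y3, h3, e⟩ := mk_dbl h0 h hy
      rw [e, qh_mk, qh_mk]
      have hD := h0.D
      have h2 := h0.two
      have ha : x ^ 3 / D + 1 ≠ 0 := by
        have : x ^ 3 / D + 1 = y ^ 2 / D := by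
          rw [h]
          field_simp
        rw [this]
        exact div_ne_zero (pow_ne_zero 2 hy) hD
      rw [← H.dbl _ ha]
      congr 1
      have hy2 : x ^ 3 + D ≠ 0 := by
        rw [← h]
        exact pow_ne_zero 2 hy
      have e1 : (3 * x ^ 2 / (2 * y)) ^ 2 - x - x = x * (x ^ 3 - 8 * D) / (4 * (x ^ 3 + D)) := by
        rw [div_pow, mul_pow, mul_pow, h]
        have h4 : (4 : L) ≠ 0 := by
          have : (4 : L) = 2 * 2 := by norm_num
          rw [this]
          exact mul_ne_zero h2 h2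
        field_simp
        ring
      rw [e1]
      have h64 : (64 : L) ≠ 0 := by
        have : (64 : L) = 2 ^ 6 := by norm_num
        rw [this]
        exact pow_ne_zero 6 h2
      have h4 : (4 : L) ≠ 0 := by
        have : (4 : L) = 2 * 2 := by norm_num
        rw [this]
        exact mul_ne_zero h2 h2
      field_simp
      ring

end

end Pool.Agent.H9.DegGrowth
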