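import Pool.Agent.H9.DegGrowth.Ell

/-!
# The degree as a height on the field of rational functions
-/

namespace Pool.Agent.H9.DegGrowth

open MvPolynomial

variable (K : Type*) [Field K]

/-- The homogeneous coordinate ring of `P^3`. -/
abbrev R : Type _ := MvPolynomial (Fin 4) K

/-- Its field of fractions. -/
abbrev LL : Type _ := FractionRing (R K)

variable {K}

/-- `z` is a quotient of two polynomials of total degree at most `e`. -/
def Rep (z : LL K) (e : ℕ) : Prop :=
  ∃ a b : R K, b ≠ 0 ∧ a.totalDegree ≤ e ∧ b.totalDegree ≤ e ∧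
    z * algebraMap (R K) (LL K) b = algebraMap (R K) (LL K) a

theorem alg_ne {b : R K} (hb : b ≠ 0) : algebraMap (R K) (LL K) b ≠ 0 :=
  (map_ne_zero_iff _ (IsFractionRing.injective (R K) (LL K))).2 hb

theorem exists_coprime (z : LL K) : ∃ a b : R K, b ≠ 0 ∧ IsRelPrime a b ∧
    z * algebraMap (R K) (LL K) b = algebraMap (R K) (LL K) a := by
  obtain ⟨a, b, hab, h⟩ := IsFractionRing.exists_reduced_fraction (A := R K) (K := LL K) z
  refine ⟨a, b, nonZeroDivisors.ne_zero b.2, hab, ?_⟩
  rw [← h]
  exact IsLocalization.mk'_spec _ _ _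

theorem exists_rep (z : LL K) : ∃ e, Rep z e := by
  obtain ⟨a, b, hb, -, h⟩ := exists_coprime z
  exact ⟨max a.totalDegree b.totalDegree, a, b, hb, le_max_left _ _, le_max_right _ _, h⟩

/-- The height (degree) of a rational function. -/
noncomputable def ht (z : LL K) : ℕ := sInf {e | Rep z e}

theorem rep_ht (z : LL K) : Rep z (ht z) := Nat.sInf_mem (s := {e | Rep z e}) (exists_rep z)

theorem ht_le {z : LL K} {e : ℕ} (h : Rep z e) : ht z ≤ e := Nat.sInf_le h

theorem ht_add (x y : LL K) : ht (x + y) ≤ ht x + ht y := by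
  obtain ⟨a, b, hb, ha, hb', h⟩ := rep_ht x
  obtain ⟨c, d, hd, hc, hd', h'⟩ := rep_ht y
  apply ht_le
  refine ⟨a * d + c * b, b * d, mul_ne_zero hb hd, ?_, ?_, ?_⟩
  · refine (totalDegree_add _ _).trans (max_le ?_ ?_)
    · exact (totalDegree_mul _ _).trans (by omega)
    · exact (totalDegree_mul _ _).trans (by omega)
  · exact (totalDegree_mul _ _).trans (by omega)
  · rw [map_add, map_mul, map_mul, map_mul, ← h, ← h']
    ring

theorem ht_mul (x y : LL K) : ht (x * y) ≤ ht x + ht y := by
  obtain ⟨a, b, hb, ha, hb', h⟩ := rep_ht x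
  obtain ⟨c, d, hd, hc, hd', h'⟩ := rep_ht y
  apply ht_le
  refine ⟨a * c, b * d, mul_ne_zero hb hd, ?_, ?_, ?_⟩
  · exact (totalDegree_mul _ _).trans (by omega)
  · exact (totalDegree_mul _ _).trans (by omega)
  · rw [map_mul, map_mul, ← h, ← h']
    ring

theorem ht_neg_le (x : LL K) : ht (-x) ≤ ht x := by
  obtain ⟨a, b, hb, ha, hb', h⟩ := rep_ht x
  apply ht_le
  refine ⟨-a, b, hb, by rwa [totalDegree_neg], hb', ?_⟩
  rw [map_neg, ← h]
  ring

theorem ht_neg (x : LL K) : ht (-x) = ht x := by
  apply le_antisymm (ht_neg_le x)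
  have := ht_neg_le (-x)
  rwa [neg_neg] at this

theorem ht_inv_le (x : LL K) : ht x⁻¹ ≤ ht x := by
  by_cases hx : x = 0
  · rw [hx, inv_zero]
  obtain ⟨a, b, hb, ha, hb', h⟩ := rep_ht x
  apply ht_le
  refine ⟨b, a, ?_, hb', ha, ?_⟩
  · rintro rfl
    rw [map_zero] at h
    rcases mul_eq_zero.1 h with h | h
    · exact hx h
    · exact alg_ne hb h
  · rw [← h, ← mul_assoc, inv_mul_cancel₀ hx, one_mul]

theorem ht_inv (x : LL K) : ht x⁻¹ = ht x := by
  apply le_antisymm (ht_inv_le x)
  have := ht_inv_le x⁻¹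
  rwa [inv_inv] at this

theorem ht_C (c : K) : ht (algebraMap (R K) (LL K) (C c)) = 0 := by
  apply Nat.le_zero.1
  apply ht_le
  refine ⟨C c, 1, one_ne_zero, ?_, ?_, ?_⟩
  · rw [totalDegree_C]
  · rw [totalDegree_one]
  · rw [map_one, mul_one]

theorem ht_coprime (z : LL K) (a b : R K) (hb : b ≠ 0) (hab : IsRelPrime a b)
    (h : z * algebraMap (R K) (LL K) b = algebraMap (R K) (LL K) a) :
    ht z = max a.totalDegree b.totalDegree := by
  apply le_antisymm
  · exact ht_le ⟨a, b, hb, le_max_left _ _, le_max_right _ _, h⟩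
  · obtain ⟨c, d, hd, hc, hd', h'⟩ := rep_ht z
    have e : a * d = c * b := by
      apply IsFractionRing.injective (R K) (LL K)
      rw [map_mul, map_mul, ← h, ← h']
      ring
    have h1 : b ∣ a * d := ⟨c, by rw [e, mul_comm]⟩
    obtain ⟨u, hu⟩ := hab.symm.dvd_of_dvd_mul_left h1
    have hu0 : u ≠ 0 := by
      rintro rfl
      rw [mul_zero] at hu
      exact hd hu
    have hca : c = a * u := by
      apply mul_right_cancel₀ hb
      rw [← e, hu]
      ring
    apply max_le
    · by_cases ha : a = 0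
      · rw [ha, totalDegree_zero]
        exact Nat.zero_le _
      · have := totalDegree_mul_of_isDomain ha hu0
        rw [← hca] at this
        omega
    · have := totalDegree_mul_of_isDomain hb hu0
      rw [← hu] at this
      omega

theorem deg_pow {a : R K} (n : ℕ) : (a ^ n).totalDegree = n * a.totalDegree := by
  by_cases ha : a = 0
  · rcases Nat.eq_zero_or_pos n with hn | hn
    · simp [hn]
    · rw [ha, zero_pow (by omega), totalDegree_zero, mul_zero]
  · induction n with
    | zero => simp
    | succ n ih =>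
      rw [pow_succ, totalDegree_mul_of_isDomain (pow_ne_zero n ha) ha, ih]
      ring

theorem ht_pow (z : LL K) (n : ℕ) : ht (z ^ n) = n * ht z := by
  obtain ⟨a, b, hb, hab, h⟩ := exists_coprime z
  rw [ht_coprime z a b hb hab h,
    ht_coprime (z ^ n) (a ^ n) (b ^ n) (pow_ne_zero n hb) (hab.pow) (by
      rw [map_pow, map_pow, ← h]
      ring), deg_pow, deg_pow]
  rcases le_total a.totalDegree b.totalDegree with h1 | h1
  · rw [max_eq_right h1, max_eq_right]
    gcongr
  · rw [max_eq_left h1, max_eq_left]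
    gcongr

theorem ht_dbl (h2 : (2 : K) ≠ 0) (h3 : (3 : K) ≠ 0) (z : LL K) (hz : z + 1 ≠ 0) :
    ht (z * (z - 8) ^ 3 / (64 * (z + 1) ^ 3)) = 4 * ht z := by
  obtain ⟨a, b, hb, hab, h⟩ := exists_coprime z
  have h64K : (64 : K) ≠ 0 := by
    have : (64 : K) = 2 ^ 6 := by norm_num
    rw [this]
    exact pow_ne_zero 6 h2
  have h9K : (9 : K) ≠ 0 := by
    have : (9 : K) = 3 ^ 2 := by norm_num
    rw [this]
    exact pow_ne_zero 2 h3
  have hab1 : a + b ≠ 0 := by
    intro h1
    apply hz
    have : (z + 1) * algebraMap (R K) (LL K) b = 0 := by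
      rw [add_mul, one_mul, h, ← map_add, h1, map_zero]
    rcases mul_eq_zero.1 this with h4 | h4
    · exact h4
    · exact absurd h4 (alg_ne hb)
  have h64 : (C (64 : K) : R K) ≠ 0 := C_ne_zero.2 h64K
  have hden : C 64 * (b * (a + b) ^ 3) ≠ 0 :=
    mul_ne_zero h64 (mul_ne_zero hb (pow_ne_zero 3 hab1))
  -- coprimality
  have u64 : IsUnit (C (64 : K) : R K) := (isUnit_iff_ne_zero.2 h64K).map C
  have u9 : IsUnit (C (9 : K) : R K) := (isUnit_iff_ne_zero.2 h9K).map C
  have c1 : IsRelPrime a (a + b) := by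
    have := hab.mul_add_left_right 1
    rwa [mul_one] at this
  have c2 : IsRelPrime (a - 8 * b) b := by
    have := hab.add_mul_right_left (-8)
    rwa [neg_mul, ← sub_eq_add_neg] at this
  have c3 : IsRelPrime (a - 8 * b) (a + b) := by
    intro d hd1 hd2
    have e1 : d ∣ C 9 * b := by
      have : (C 9 : R K) * b = (a + b) - (a - 8 * b) := by
        rw [map_ofNat C 9]
        ring
      rw [this]
      exact dvd_sub hd2 hd1
    have e2 : d ∣ b := (u9.dvd_mul_left).1 e1
    exact c2 hd1 e2
  have c4 : IsRelPrime (a * (a - 8 * b) ^ 3) (C 64 * (b * (a + b) ^ 3)) := by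
    have d1 : IsRelPrime a (b * (a + b) ^ 3) := hab.mul_right (c1.pow_right)
    have d2 : IsRelPrime ((a - 8 * b) ^ 3) (b * (a + b) ^ 3) :=
      (c2.mul_right (c3.pow_right)).pow_left
    have d3 : IsRelPrime (a * (a - 8 * b) ^ 3) (b * (a + b) ^ 3) := d1.mul_left d2
    intro d hd1 hd2
    exact d3 hd1 ((u64.dvd_mul_left).1 hd2)
  have hrep : z * (z - 8) ^ 3 / (64 * (z + 1) ^ 3) *
      algebraMap (R K) (LL K) (C 64 * (b * (a + b) ^ 3))
      = algebraMap (R K) (LL K) (a * (a - 8 * b) ^ 3) := by
    have hb' := alg_ne hb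
    have h64L : (64 : LL K) ≠ 0 := by
      have := alg_ne h64
      rwa [map_ofNat C 64, map_ofNat] at this
    rw [map_ofNat C 64]
    simp only [map_mul, map_pow, map_add, map_sub, map_ofNat]
    rw [← h]
    field_simp
  rw [ht_coprime z a b hb hab h, ht_coprime _ _ _ hden c4 hrep]
  have dd : (C 64 * (b * (a + b) ^ 3)).totalDegree = b.totalDegree + 3 * (a + b).totalDegree := by
    rw [totalDegree_mul_of_isDomain h64 (mul_ne_zero hb (pow_ne_zero 3 hab1)), totalDegree_C,
      totalDegree_mul_of_isDomain hb (pow_ne_zero 3 hab1), deg_pow, zero_add]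
  have dn : (a * (a - 8 * b) ^ 3).totalDegree ≤ a.totalDegree + 3 * (a - 8 * b).totalDegree := by
    refine (totalDegree_mul _ _).trans ?_
    rw [deg_pow]
  have dn' : a ≠ 0 → a - 8 * b ≠ 0 →
      (a * (a - 8 * b) ^ 3).totalDegree = a.totalDegree + 3 * (a - 8 * b).totalDegree := by
    intro ha hs
    rw [totalDegree_mul_of_isDomain ha (pow_ne_zero 3 hs), deg_pow]
  have e8 : (8 * b : R K).totalDegree ≤ b.totalDegree := by
    have : (8 : R K) = C 8 := (map_ofNat C 8).symm
    rw [this]
    refine (totalDegree_mul _ _).trans ?_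
    rw [totalDegree_C, zero_add]
  have s1 : (a + b).totalDegree ≤ max a.totalDegree b.totalDegree := totalDegree_add _ _
  have s2 : (a - 8 * b).totalDegree ≤ max a.totalDegree b.totalDegree := by
    refine (totalDegree_sub _ _).trans ?_
    exact max_le_max le_rfl e8
  apply le_antisymm
  · apply max_le
    · refine dn.trans ?_
      have := le_max_left a.totalDegree b.totalDegree
      omega
    · rw [dd]
      have := le_max_right a.totalDegree b.totalDegree
      omega
  · rcases Nat.eq_zero_or_pos (max a.totalDegree b.totalDegree) with h0 | h0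
    · omega
    have ha_of : a.totalDegree = max a.totalDegree b.totalDegree → a ≠ 0 := by
      intro h1 h4
      rw [h4, totalDegree_zero] at h1
      rw [h4, totalDegree_zero] at h0
      omega
    have hs_of : (a - 8 * b).totalDegree = max a.totalDegree b.totalDegree → a - 8 * b ≠ 0 := by
      intro h1 h4
      rw [h4, totalDegree_zero] at h1
      omega
    rcases lt_trichotomy a.totalDegree b.totalDegree with h1 | h1 | h1
    · have e : (a + b).totalDegree = b.totalDegree :=
        totalDegree_add_eq_right_of_totalDegree_lt h1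
      rw [dd, e, max_eq_right h1.le]
      refine le_trans ?_ (le_max_right _ _)
      omega
    · have e9 : b.totalDegree ≤ max (a + b).totalDegree (a - 8 * b).totalDegree := by
        have e1 : (C 9 * b : R K) = (a + b) - (a - 8 * b) := by
          rw [map_ofNat C 9]
          ring
        have e2 : (C 9 * b : R K).totalDegree = b.totalDegree := by
          rw [totalDegree_mul_of_isDomain (C_ne_zero.2 h9K) hb, totalDegree_C, zero_add]
        rw [← e2, e1]
        exact totalDegree_sub _ _
      rw [← h1, max_self] at h0 s1 s2 ha_of hs_of ⊢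
      rw [← h1] at e9 dd
      rcases le_max_iff.1 e9 with h5 | h5
      · refine le_trans ?_ (le_max_right _ _)
        rw [dd]
        omega
      · refine le_trans ?_ (le_max_left _ _)
        rw [dn' (ha_of rfl) (hs_of (by omega))]
        omega
    · have e : (a - 8 * b).totalDegree = a.totalDegree := by
        rw [sub_eq_add_neg]
        apply totalDegree_add_eq_left_of_totalDegree_lt
        rw [totalDegree_neg]
        omega
      rw [max_eq_left h1.le] at ha_of hs_of ⊢
      refine le_trans ?_ (le_max_left _ _)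
      rw [dn' (ha_of rfl) (hs_of e), e]
      omega

theorem isHt (h2 : (2 : K) ≠ 0) (h3 : (3 : K) ≠ 0) : IsHt (ht : LL K → ℕ) where
  two := by
    have := alg_ne (C_ne_zero.2 h2 : (C (2 : K) : R K) ≠ 0)
    rwa [map_ofNat C 2, map_ofNat] at this
  three := by
    have := alg_ne (C_ne_zero.2 h3 : (C (3 : K) : R K) ≠ 0)
    rwa [map_ofNat C 3, map_ofNat] at this
  add := ht_add
  mul := ht_mul
  neg := ht_neg
  inv := ht_inv
  num := by
    intro n
    have := ht_C (n : K)
    rwa [map_natCast C, map_natCast] at this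
  sq := by
    intro z
    rw [ht_pow]
    omega
  cube := by
    intro z
    rw [ht_pow]
    omega
  dbl := ht_dbl h2 h3

end Pool.Agent.H9.DegGrowth
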