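import Pool.Agent.H9.DegGrowth.Height
import Pool.Agent.H9.DegGrowth.Defs

/-!
# Quotients of forms of the same degree
-/

namespace Pool.Agent.H9.DegGrowth

open MvPolynomial

variable {K : Type} [Field K]

theorem hc_mul (a v : R K) (n d : ℕ) (hv : v.IsHomogeneous d) :
    homogeneousComponent (n + d) (a * v) = homogeneousComponent n a * v := by
  conv_lhs => rw [← sum_homogeneousComponent a]
  rw [Finset.sum_mul, map_sum]
  have e : ∀ i, homogeneousComponent (n + d) (homogeneousComponent i a * v)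
      = if n = i then homogeneousComponent i a * v else 0 := by
    intro i
    have h1 : homogeneousComponent i a * v ∈ homogeneousSubmodule (Fin 4) K (i + d) :=
      (homogeneousComponent_isHomogeneous i a).mul hv
    rw [homogeneousComponent_of_mem h1]
    by_cases h : n = i
    · rw [if_pos h, if_pos (by omega)]
    · rw [if_neg h, if_neg (by omega)]
  simp only [e]
  rw [Finset.sum_ite_eq]
  split_ifs with h
  · rfl
  · rw [homogeneousComponent_eq_zero, zero_mul]
    rw [Finset.mem_range] at h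
    omega

theorem totalDegree_of_hc {a : R K} {e : ℕ} (ha : a.totalDegree ≤ e + 1)
    (h : homogeneousComponent (e + 1) a = 0) : a.totalDegree ≤ e := by
  rw [← sum_homogeneousComponent a]
  refine (totalDegree_finsetSum _ _).trans ?_
  rw [Finset.sup_le_iff]
  intro i hi
  rw [Finset.mem_range] at hi
  by_cases h1 : i = e + 1
  · rw [h1, h, totalDegree_zero]
    exact Nat.zero_le _
  · exact (homogeneousComponent_isHomogeneous i a).totalDegree_le.trans (by omega)

/-- Quotients of forms of the same degree. -/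
def IsDeg0 (z : LL K) : Prop :=
  ∃ (d : ℕ) (u v : R K), u.IsHomogeneous d ∧ v.IsHomogeneous d ∧ v ≠ 0 ∧
    z * algebraMap (R K) (LL K) v = algebraMap (R K) (LL K) u

theorem IsDeg0.add {x y : LL K} (hx : IsDeg0 x) (hy : IsDeg0 y) : IsDeg0 (x + y) := by
  obtain ⟨d, u, v, hu, hv, hv0, h⟩ := hx
  obtain ⟨d', u', v', hu', hv', hv0', h'⟩ := hy
  refine ⟨d + d', u * v' + u' * v, v * v', ?_, hv.mul hv', mul_ne_zero hv0 hv0', ?_⟩
  · apply (hu.mul hv').add
    rw [add_comm]
    exact hu'.mul hv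
  · rw [map_add, map_mul, map_mul, map_mul, ← h, ← h']
    ring

theorem IsDeg0.mul {x y : LL K} (hx : IsDeg0 x) (hy : IsDeg0 y) : IsDeg0 (x * y) := by
  obtain ⟨d, u, v, hu, hv, hv0, h⟩ := hx
  obtain ⟨d', u', v', hu', hv', hv0', h'⟩ := hy
  refine ⟨d + d', u * u', v * v', hu.mul hu', hv.mul hv', mul_ne_zero hv0 hv0', ?_⟩
  rw [map_mul, map_mul, ← h, ← h']
  ring

theorem IsDeg0.neg {x : LL K} (hx : IsDeg0 x) : IsDeg0 (-x) := by
  obtain ⟨d, u, v, hu, hv, hv0, h⟩ := hx
  refine ⟨d, -u, v, hu.neg, hv, hv0, ?_⟩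
  rw [map_neg, ← h]
  ring

theorem IsDeg0.const (c : K) : IsDeg0 (algebraMap (R K) (LL K) (C c)) :=
  ⟨0, C c, 1, isHomogeneous_C _ _, isHomogeneous_one _ _, one_ne_zero, by rw [map_one, mul_one]⟩

theorem IsDeg0.natCast (n : ℕ) : IsDeg0 (n : LL K) := by
  have := IsDeg0.const (n : K)
  rwa [map_natCast C, map_natCast] at this

theorem IsDeg0.inv {x : LL K} (hx : IsDeg0 x) : IsDeg0 x⁻¹ := by
  by_cases hx0 : x = 0
  · rw [hx0, inv_zero]
    simpa using IsDeg0.natCast (K := K) 0
  obtain ⟨d, u, v, hu, hv, hv0, h⟩ := hx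
  refine ⟨d, v, u, hv, hu, ?_, ?_⟩
  · rintro rfl
    rw [map_zero] at h
    rcases mul_eq_zero.1 h with h | h
    · exact hx0 h
    · exact alg_ne hv0 h
  · rw [← h, ← mul_assoc, inv_mul_cancel₀ hx0, one_mul]

theorem IsDeg0.sub {x y : LL K} (hx : IsDeg0 x) (hy : IsDeg0 y) : IsDeg0 (x - y) := by
  rw [sub_eq_add_neg]
  exact hx.add hy.neg

theorem IsDeg0.div {x y : LL K} (hx : IsDeg0 x) (hy : IsDeg0 y) : IsDeg0 (x / y) := by
  rw [div_eq_mul_inv]
  exact hx.mul hy.inv

theorem IsDeg0.pow {x : LL K} (hx : IsDeg0 x) (n : ℕ) : IsDeg0 (x ^ n) := by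
  induction n with
  | zero => simpa using IsDeg0.natCast (K := K) 1
  | succ n ih =>
    rw [pow_succ]
    exact ih.mul hx

/-- A quotient of forms of the same degree is a quotient of forms of degree `ht z`. -/
theorem hom_rep {z : LL K} (hz : IsDeg0 z) : ∃ u v : R K, u.IsHomogeneous (ht z) ∧
    v.IsHomogeneous (ht z) ∧ v ≠ 0 ∧ z * algebraMap (R K) (LL K) v = algebraMap (R K) (LL K) u := by
  obtain ⟨d, u, v, hu, hv, hv0, h⟩ := hz
  obtain ⟨a, b, hb, ha, hb', h'⟩ := rep_ht z
  have e : a * v = b * u := by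
    apply IsFractionRing.injective (R K) (LL K)
    rw [map_mul, map_mul, ← h, ← h']
    ring
  have e1 : homogeneousComponent (ht z) a * v = homogeneousComponent (ht z) b * u := by
    rw [← hc_mul a v _ d hv, ← hc_mul b u _ d hu, e]
  refine ⟨homogeneousComponent (ht z) a, homogeneousComponent (ht z) b,
    homogeneousComponent_isHomogeneous _ _, homogeneousComponent_isHomogeneous _ _, ?_, ?_⟩
  · intro h0
    rw [h0, zero_mul] at e1
    have h1 : homogeneousComponent (ht z) a = 0 := by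
      rcases mul_eq_zero.1 e1 with h | h
      · exact h
      · exact absurd h hv0
    rcases Nat.eq_zero_or_pos (ht z) with h2 | h2
    · rw [h2] at h0 hb'
      have : b.totalDegree = 0 := Nat.le_zero.1 hb'
      rw [totalDegree_eq_zero_iff_eq_C] at this
      rw [homogeneousComponent_zero] at h0
      rw [h0] at this
      exact hb this
    · obtain ⟨k, hk⟩ : ∃ k, ht z = k + 1 := ⟨ht z - 1, by omega⟩
      rw [hk] at h0 h1 ha hb'
      have := ht_le ⟨a, b, hb, totalDegree_of_hc ha h1, totalDegree_of_hc hb' h0, h'⟩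
      omega
  · apply mul_right_cancel₀ (alg_ne hv0)
    rw [← map_mul, e1, map_mul, ← h]
    ring

section Deg

variable (f : Fin (3 + 1) → MvPolynomial (Fin (3 + 1)) K) (d : ℕ)

theorem iter_hom (hf : ∀ i, (f i).IsHomogeneous d) (n : ℕ) :
    ∀ i, (iter f n i).IsHomogeneous (d ^ n) := by
  induction n with
  | zero =>
    intro i
    simpa [iter] using isHomogeneous_X K i
  | succ n ih =>
    intro i
    have := (hf i).aeval (iter f n) ih
    rw [pow_succ]
    exact this

theorem degIter_nonempty (hf : ∀ i, (f i).IsHomogeneous d) (n : ℕ) (h0 : iter f n 0 ≠ 0) :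
    ({e | ∃ g : Fin (3 + 1) → MvPolynomial (Fin (3 + 1)) K,
    (∀ i, (g i).IsHomogeneous e) ∧ (∃ i, g i ≠ 0) ∧
      ∀ i j, g i * iter f n j = g j * iter f n i}).Nonempty :=
  ⟨d ^ n, iter f n, iter_hom f d hf n, ⟨0, h0⟩, fun i j => mul_comm _ _⟩

/-- The ratio of two of the forms. -/
noncomputable def ratio (n : ℕ) (i : Fin (3 + 1)) : LL K :=
  algebraMap (R K) (LL K) (iter f n i) / algebraMap (R K) (LL K) (iter f n 0)

theorem degIter_lower (hf : ∀ i, (f i).IsHomogeneous d) (n : ℕ) (h0 : iter f n 0 ≠ 0)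
    (i : Fin (3 + 1)) : ht (ratio f n i) ≤ degIter f n := by
  obtain ⟨g, hg, ⟨k, hk⟩, hgg⟩ := Nat.sInf_mem (degIter_nonempty f d hf n h0)
  have hg0 : g 0 ≠ 0 := by
    intro h
    have := hgg k 0
    rw [h, zero_mul] at this
    rcases mul_eq_zero.1 this with h1 | h1
    · exact hk h1
    · exact h0 h1
  apply ht_le
  refine ⟨g i, g 0, hg0, (hg i).totalDegree_le, (hg 0).totalDegree_le, ?_⟩
  unfold ratio
  have h1 := alg_ne h0
  rw [div_mul_eq_mul_div, div_eq_iff h1, ← map_mul, ← map_mul, hgg i 0, mul_comm]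

theorem ratio_deg0 (hf : ∀ i, (f i).IsHomogeneous d) (n : ℕ) (h0 : iter f n 0 ≠ 0)
    (i : Fin (3 + 1)) : IsDeg0 (ratio f n i) := by
  refine ⟨d ^ n, iter f n i, iter f n 0, iter_hom f d hf n i, iter_hom f d hf n 0, h0, ?_⟩
  unfold ratio
  rw [div_mul_cancel₀ _ (alg_ne h0)]

theorem degIter_upper (hf : ∀ i, (f i).IsHomogeneous d) (n : ℕ) (h0 : iter f n 0 ≠ 0) :
    degIter f n ≤ ht (ratio f n 1) + ht (ratio f n 2) + ht (ratio f n 3) := by
  obtain ⟨u1, v1, hu1, hv1, n1, e1⟩ := hom_rep (ratio_deg0 f d hf n h0 1)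
  obtain ⟨u2, v2, hu2, hv2, n2, e2⟩ := hom_rep (ratio_deg0 f d hf n h0 2)
  obtain ⟨u3, v3, hu3, hv3, n3, e3⟩ := hom_rep (ratio_deg0 f d hf n h0 3)
  apply Nat.sInf_le
  have key : ∀ i, algebraMap (R K) (LL K) (![v1 * v2 * v3, u1 * v2 * v3, v1 * u2 * v3,
      v1 * v2 * u3] i) = ratio f n i * algebraMap (R K) (LL K) (v1 * v2 * v3) := by
    intro i
    fin_cases i
    · have : ratio f n 0 = 1 := div_self (alg_ne h0)
      simp only [Fin.zero_eta, Matrix.cons_val_zero]
      rw [this, one_mul]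
    · simp only [Fin.mk_one, Matrix.cons_val_one, Matrix.cons_val_zero, map_mul]
      rw [← e1]
      ring
    · simp only [Fin.reduceFinMk, Matrix.cons_val, map_mul]
      rw [← e2]
      ring
    · simp only [Fin.reduceFinMk, Matrix.cons_val, map_mul]
      rw [← e3]
      ring
  refine ⟨![v1 * v2 * v3, u1 * v2 * v3, v1 * u2 * v3, v1 * v2 * u3], ?_, ⟨0, ?_⟩, ?_⟩
  · intro i
    fin_cases i
    · exact (hv1.mul hv2).mul hv3
    · exact (hu1.mul hv2).mul hv3
    · exact (hv1.mul hu2).mul hv3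
    · exact (hv1.mul hv2).mul hu3
  · exact mul_ne_zero (mul_ne_zero n1 n2) n3
  · intro i j
    apply IsFractionRing.injective (R K) (LL K)
    rw [map_mul, map_mul, key i, key j]
    unfold ratio
    have h1 := alg_ne h0
    field_simp

end Deg

end Pool.Agent.H9.DegGrowth
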