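import Pool.Agent.H9.DegGrowth.Concrete

/-!
# Dominance
-/

namespace Pool.Agent.H9.DegGrowth

open MvPolynomial

variable (K : Type) [Field K]

theorem hom_scale {A : Type*} [CommRing A] [Algebra K A] (g : R K) (d : ℕ)
    (hg : g.IsHomogeneous d) (c : A) (y : Fin 4 → A) :
    aeval (fun i => c * y i) g = c ^ d * aeval y g := by
  rw [aeval_def, aeval_def, eval₂_eq', eval₂_eq', Finset.mul_sum]
  apply Finset.sum_congr rfl
  intro s hs
  have h1 : ∑ i, s i = d := by
    have h2 := hg (mem_support_iff.1 hs)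
    have h3 : Finsupp.degree s = d := by
      rw [Finsupp.degree_eq_weight_one]
      exact h2
    rwa [Finsupp.degree_eq_sum] at h3
  simp only [mul_pow]
  rw [Finset.prod_mul_distrib, Finset.prod_pow_eq_pow_sum, h1]
  ring

variable [CharZero K]

theorem dominant (F : Fin 4 → R K) (d : ℕ) (hd : d ≠ 0) (hF : ∀ i, (F i).IsHomogeneous d)
    (hF0 : F 0 ≠ 0)
    (h1 : algebraMap (R K) (LL K) (F 1) = pp' K * algebraMap (R K) (LL K) (F 0))
    (h2 : algebraMap (R K) (LL K) (F 2) = qq' K * algebraMap (R K) (LL K) (F 0))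
    (h3 : algebraMap (R K) (LL K) (F 3) = mm' K * algebraMap (R K) (LL K) (F 0)) :
    ∀ P : R K, aeval F P = 0 → P = 0 := by
  let x : Fin 4 → LL K := fun i => algebraMap (R K) (LL K) (F i)
  let E : IntermediateField K (LL K) := IntermediateField.adjoin K (Set.range x)
  have hx : ∀ i, x i ∈ E := fun i => IntermediateField.subset_adjoin K _ ⟨i, rfl⟩
  have hx0 : x 0 ≠ 0 := alg_ne hF0
  have mp' : pp' K ∈ E := by
    have : pp' K = x 1 / x 0 := by
      rw [eq_div_iff hx0]
      exact h1.symm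
    rw [this]
    exact E.div_mem (hx 1) (hx 0)
  have mq' : qq' K ∈ E := by
    have : qq' K = x 2 / x 0 := by
      rw [eq_div_iff hx0]
      exact h2.symm
    rw [this]
    exact E.div_mem (hx 2) (hx 0)
  have mm1 : mm' K ∈ E := by
    have : mm' K = x 3 / x 0 := by
      rw [eq_div_iff hx0]
      exact h3.symm
    rw [this]
    exact E.div_mem (hx 3) (hx 0)
  have m1 : (1 : LL K) ∈ E := E.one_mem
  have m2 : (2 : LL K) ∈ E := by
    have : (2 : LL K) = 1 + 1 := by norm_num
    rw [this]
    exact E.add_mem m1 m1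
  have mb' : 1 - pp' K ^ 3 ∈ E := E.sub_mem m1 (pow_mem mp' 3)
  have ma' : 1 - qq' K ^ 3 ∈ E := E.sub_mem m1 (pow_mem mq' 3)
  have mt2' : t2' K ∈ E := by
    have := t2'_rec K
    rw [← eq_div_iff (dd'_ne K)] at this
    rw [this]
    exact E.div_mem (E.sub_mem (E.mul_mem (E.mul_mem mb' mm1) (E.sub_mem m2 mm1)) ma')
      (E.sub_mem ma' (E.mul_mem mb' (pow_mem mm1 2)))
  have mt3' : t3' K ∈ E := by
    have : t3' K = mm' K * (t2' K - 1) + 1 := by linear_combination mm'_eq K
    rw [this]
    exact E.add_mem (E.mul_mem mm1 (E.sub_mem mt2' m1)) m1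
  have mxi : xi K ∈ E := by
    have : xi K = (1 - t2' K ^ 2) / (1 - pp' K ^ 3) := by
      rw [eq_div_iff (bb'_ne K)]
      exact xi_bb' K
    rw [this]
    exact E.div_mem (E.sub_mem m1 (pow_mem mt2' 2)) mb'
  have mx2 : x2' K ∈ E := by
    rw [x2'_eq]
    exact E.mul_mem mp' mxi
  have my2 : y2' K ∈ E := by
    rw [y2'_eq]
    exact E.mul_mem mt2' mxi
  have mx3 : x3' K ∈ E := by
    rw [x3'_eq]
    exact E.mul_mem mq' mxi
  have my3 : y3' K ∈ E := by
    rw [y3'_eq]
    exact E.mul_mem mt3' mxi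
  have ms2 : (y2' K + xi K) / (x2' K - xi K) ∈ E :=
    E.div_mem (E.add_mem my2 mxi) (E.sub_mem mx2 mxi)
  have mpx : pp K * xi K ∈ E := by
    rw [(rec2 K).1]
    exact E.sub_mem (E.sub_mem (pow_mem ms2 2) mx2) mxi
  have mtx : t2 K * xi K ∈ E := by
    rw [(rec2 K).2]
    exact E.neg_mem (E.add_mem (E.mul_mem ms2 (E.sub_mem mpx mx2)) my2)
  have ms3 : (y3' K + t2 K * xi K) / (x3' K - pp K * xi K) ∈ E :=
    E.div_mem (E.add_mem my3 mtx) (E.sub_mem mx3 mpx)
  have mqx : qq K * xi K ∈ E := by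
    rw [(rec3 K).1]
    exact E.sub_mem (E.sub_mem (pow_mem ms3 2) mx3) mpx
  have mtx3 : t3 K * xi K ∈ E := by
    rw [(rec3 K).2]
    exact E.neg_mem (E.add_mem (E.mul_mem ms3 (E.sub_mem mqx mx3)) my3)
  have hdiv : ∀ z : LL K, z * xi K ∈ E → z ∈ E := by
    intro z hz
    have : z = z * xi K / xi K := by rw [mul_div_cancel_right₀ _ (xi_ne K)]
    rw [this]
    exact E.div_mem hz mxi
  have mp : pp K ∈ E := hdiv _ mpx
  have mq : qq K ∈ E := hdiv _ mqx
  have mt2 : t2 K ∈ E := hdiv _ mtx
  have mt3 : t3 K ∈ E := hdiv _ mtx3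
  have mm1 : mm K ∈ E := by
    rw [mm_rec]
    exact E.div_mem (E.sub_mem mt3 m1) (E.sub_mem mt2 m1)
  -- the first variable is algebraic
  let y : Fin 4 → LL K := ![1, pp K, qq K, mm K]
  have hy : ∀ i, y i ∈ E := by
    intro i
    fin_cases i
    · exact m1
    · exact mp
    · exact mq
    · exact mm1
  have hxy : ∀ i, xx (K := K) i = xx 0 * y i := by
    intro i
    have h0 := xx_ne (K := K) 0
    fin_cases i
    · exact (mul_one _).symm
    · exact (mul_div_cancel₀ _ h0).symm
    · exact (mul_div_cancel₀ _ h0).symm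
    · exact (mul_div_cancel₀ _ h0).symm
  have halg : ∀ g : R K, algebraMap (R K) (LL K) g = aeval (fun i => xx (K := K) i) g := by
    intro g
    have e : (IsScalarTower.toAlgHom K (R K) (LL K)) = aeval (fun i => xx (K := K) i) := by
      apply algHom_ext
      intro i
      rw [aeval_X]
      rfl
    exact congrArg (fun φ : R K →ₐ[K] LL K => φ g) e
  have hF0' : algebraMap (R K) (LL K) (F 0) = xx 0 ^ d * aeval y (F 0) := by
    rw [halg, ← hom_scale K (F 0) d (hF 0) (xx 0) y]
    exact congrArg (fun z : Fin 4 → LL K => aeval z (F 0)) (funext hxy)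
  have hyE : aeval y (F 0) ∈ E := by
    induction (F 0) using MvPolynomial.induction_on with
    | C c =>
      rw [algHom_C]
      exact E.algebraMap_mem c
    | add p q hp hq =>
      rw [map_add]
      exact E.add_mem hp hq
    | mul_X p i hp =>
      rw [map_mul, aeval_X]
      exact E.mul_mem hp (hy i)
  have hy0 : aeval y (F 0) ≠ 0 := by
    intro h
    rw [h, mul_zero] at hF0'
    exact alg_ne hF0 hF0'
  have hpow : xx (K := K) 0 ^ d ∈ E := by
    have : xx (K := K) 0 ^ d = x 0 / aeval y (F 0) := by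
      rw [eq_div_iff hy0]
      exact hF0'.symm
    rw [this]
    exact E.div_mem (hx 0) hyE
  have ha0 : IsAlgebraic E (xx (K := K) 0) := by
    apply IsAlgebraic.of_pow (Nat.pos_of_ne_zero hd)
    exact isAlgebraic_algebraMap (⟨_, hpow⟩ : E)
  have hmemalg : ∀ z : LL K, z ∈ E → IsAlgebraic E z := fun z hz =>
    isAlgebraic_algebraMap (⟨z, hz⟩ : E)
  have hai : ∀ i, IsAlgebraic E (xx (K := K) i) := by
    intro i
    rw [hxy i]
    exact ha0.mul (hmemalg _ (hy i))
  have hag : ∀ g : R K, IsAlgebraic E (algebraMap (R K) (LL K) g) := by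
    intro g
    rw [halg]
    induction g using MvPolynomial.induction_on with
    | C c =>
      rw [algHom_C]
      exact hmemalg _ (E.algebraMap_mem c)
    | add p q hp hq =>
      rw [map_add]
      exact hp.add hq
    | mul_X p i hp =>
      rw [map_mul, aeval_X]
      exact hp.mul (hai i)
  have hEalg : Algebra.IsAlgebraic E (LL K) := by
    constructor
    intro z
    obtain ⟨a, b, hb, -, h⟩ := exists_coprime z
    have : z = algebraMap (R K) (LL K) a * (algebraMap (R K) (LL K) b)⁻¹ := by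
      rw [← h, mul_inv_cancel_right₀ (alg_ne hb)]
    rw [this]
    exact (hag a).mul (hag b).inv
  have hAalg : Algebra.IsAlgebraic (Algebra.adjoin K (Set.range x)) (LL K) := by
    open scoped IntermediateField.algebraAdjoinAdjoin in
    exact (IsFractionRing.comap_isAlgebraic_iff (A := Algebra.adjoin K (Set.range x))
      (K := IntermediateField.adjoin K (Set.range x)) (C := LL K)).2 hEalg
  have htr : Cardinal.mk (Fin 4) ≤ Algebra.trdeg K (LL K) := by
    have e1 : Algebra.trdeg K (R K) = Cardinal.lift.{0} (Cardinal.mk (Fin 4)) :=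
      MvPolynomial.trdeg_of_isDomain
    have e2 := trdeg_le_of_injective (IsScalarTower.toAlgHom K (R K) (LL K))
      (IsFractionRing.injective (R K) (LL K))
    rw [e1, Cardinal.lift_id] at e2
    exact e2
  have hbase := Algebra.IsAlgebraic.isTranscendenceBasis_of_le_trdeg_of_finite K x htr
  intro P hP
  have hind : AlgebraicIndependent K x := hbase.1
  have e : aeval x P = algebraMap (R K) (LL K) (aeval F P) := by
    have e : (IsScalarTower.toAlgHom K (R K) (LL K)).comp (aeval F) = aeval x := by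
      apply algHom_ext
      intro i
      rw [AlgHom.comp_apply, aeval_X, aeval_X]
      rfl
    exact (congrArg (fun φ : R K →ₐ[K] LL K => φ P) e).symm
  rw [hP, map_zero] at e
  exact hind.eq_zero_of_aeval_eq_zero P e

end Pool.Agent.H9.DegGrowth
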