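import Pool.Agent.H9.DegGrowth.Indep
import Pool.Agent.H9.DegGrowth.Analysis

/-!
# The orbit of the generic point
-/

namespace Pool.Agent.H9.DegGrowth

open MvPolynomial

variable {K : Type} [Field K]

section sigma

variable (F : Fin 4 → R K) (hinj : ∀ P : R K, aeval F P = 0 → P = 0)

/-- The substitution. -/
noncomputable def phi : R K →ₐ[K] R K := aeval F

theorem iter_phi (n : ℕ) (i : Fin 4) : iter (N := 3) F n i = ((phi F) ^ n) (X i) := by
  induction n generalizing i with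
  | zero => rfl
  | succ n ih =>
    have h1 : iter (N := 3) F (n + 1) i = aeval (iter (N := 3) F n) (F i) := rfl
    have h2 : (iter (N := 3) F n) = fun j => ((phi F) ^ n) (X j) := funext ih
    have h3 : aeval (fun j => ((phi F) ^ n) (X j)) = ((phi F) ^ n : R K →ₐ[K] R K) := by
      apply algHom_ext
      intro j
      rw [aeval_X]
    rw [h1, h2, h3, pow_succ]
    have h4 : (phi F) (X i) = F i := by
      unfold phi
      rw [aeval_X]
    rw [← h4]
    rfl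

include hinj in
theorem comp_inj : Function.Injective
    ((algebraMap (R K) (LL K)).comp (phi F : R K →+* R K)) := by
  rw [injective_iff_map_eq_zero]
  intro P hP
  apply hinj
  exact (map_eq_zero_iff _ (IsFractionRing.injective (R K) (LL K))).1 hP

/-- The induced endomorphism of the function field. -/
noncomputable def sig : LL K →+* LL K := IsFractionRing.lift (comp_inj F hinj)

theorem sig_alg (a : R K) :
    sig F hinj (algebraMap (R K) (LL K) a) = algebraMap (R K) (LL K) (phi F a) :=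
  IsFractionRing.lift_algebraMap _ _

theorem sig_pow_alg (n : ℕ) (a : R K) :
    ((sig F hinj) ^ n) (algebraMap (R K) (LL K) a)
      = algebraMap (R K) (LL K) (((phi F) ^ n) a) := by
  induction n generalizing a with
  | zero => rfl
  | succ n ih =>
    rw [pow_succ, pow_succ]
    have h1 : ((sig F hinj) ^ n * sig F hinj) (algebraMap (R K) (LL K) a)
        = ((sig F hinj) ^ n) (sig F hinj (algebraMap (R K) (LL K) a)) := rfl
    rw [h1, sig_alg, ih]
    rfl

include hinj in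
theorem iter_ne (n : ℕ) (i : Fin 4) : iter (N := 3) F n i ≠ 0 := by
  intro h
  have h1 := sig_pow_alg F hinj n (X i)
  rw [← iter_phi, h, map_zero] at h1
  have h2 := (map_eq_zero_iff _ (RingHom.injective ((sig F hinj) ^ n))).1 h1
  exact xx_ne i h2

theorem ratio_sig (n : ℕ) (i : Fin 4) :
    ratio F n i = ((sig F hinj) ^ n) (xx i / xx 0) := by
  unfold ratio
  rw [map_div₀]
  unfold xx
  rw [sig_pow_alg, sig_pow_alg, iter_phi, iter_phi]

end sigma

section orbit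

variable [CharZero K] (F : Fin 4 → R K) (hinj : ∀ P : R K, aeval F P = 0 → P = 0)
    (hF0 : F 0 ≠ 0)
    (h1 : algebraMap (R K) (LL K) (F 1) = pp' K * algebraMap (R K) (LL K) (F 0))
    (h2 : algebraMap (R K) (LL K) (F 2) = qq' K * algebraMap (R K) (LL K) (F 0))
    (h3 : algebraMap (R K) (LL K) (F 3) = mm' K * algebraMap (R K) (LL K) (F 0))

theorem phi_X (i : Fin 4) : phi F (X i) = F i := by
  unfold phi
  rw [aeval_X]

include hF0

include h1 in
theorem s_pp : sig F hinj (pp K) = pp' K := by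
  unfold pp xx
  rw [map_div₀, sig_alg, sig_alg, phi_X, phi_X, h1, mul_div_cancel_right₀ _ (alg_ne hF0)]

include h2 in
theorem s_qq : sig F hinj (qq K) = qq' K := by
  unfold qq xx
  rw [map_div₀, sig_alg, sig_alg, phi_X, phi_X, h2, mul_div_cancel_right₀ _ (alg_ne hF0)]

include h3 in
theorem s_mm : sig F hinj (mm K) = mm' K := by
  unfold mm xx
  rw [map_div₀, sig_alg, sig_alg, phi_X, phi_X, h3, mul_div_cancel_right₀ _ (alg_ne hF0)]

omit hF0 in
theorem t2_rec : t2 K * ((1 - qq K ^ 3) - (1 - pp K ^ 3) * mm K ^ 2)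
    = (1 - pp K ^ 3) * mm K * (2 - mm K) - (1 - qq K ^ 3) := by
  have hd := dd_ne K
  have e1 : (1 - qq K ^ 3) - (1 - pp K ^ 3) * mm K ^ 2 = dd K := rfl
  rw [e1]
  unfold t2 tau
  rw [add_mul, div_mul_cancel₀ _ hd]
  unfold dd bb aa
  ring

include h1 h2 h3

theorem s_t2 : sig F hinj (t2 K) = t2' K := by
  have h := congrArg (sig F hinj) (t2_rec (K := K))
  simp only [map_mul, map_sub, map_pow, map_one, map_ofNat] at h
  rw [s_pp F hinj hF0 h1, s_qq F hinj hF0 h2, s_mm F hinj hF0 h3, ← t2'_rec] at h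
  exact mul_right_cancel₀ (dd'_ne K) h

omit hF0 h1 h2 h3 in
theorem t3_eq : t3 K = 1 + mm K * (t2 K - 1) := by
  unfold t3 t2
  ring

theorem s_t3 : sig F hinj (t3 K) = t3' K := by
  rw [t3_eq]
  simp only [map_add, map_mul, map_sub, map_one]
  rw [s_t2 F hinj hF0 h1 h2 h3, s_mm F hinj hF0 h3]
  linear_combination -mm'_eq K

theorem s_xi : sig F hinj (xi K) = xi K := by
  have h := congrArg (sig F hinj) (xi_bb K)
  unfold bb at h
  simp only [map_mul, map_sub, map_pow, map_one] at h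
  rw [s_pp F hinj hF0 h1, s_t2 F hinj hF0 h1 h2 h3, ← xi_bb'] at h
  exact mul_right_cancel₀ (bb'_ne K) h

theorem s_DD : sig F hinj (DD K) = DD K := by
  unfold DD
  simp only [map_mul, map_sub, map_pow, map_one]
  rw [s_xi F hinj hF0 h1 h2 h3]

theorem sn_xi (n : ℕ) : ((sig F hinj) ^ n) (xi K) = xi K := by
  induction n with
  | zero => rfl
  | succ n ih =>
    rw [pow_succ]
    change ((sig F hinj) ^ n) (sig F hinj (xi K)) = xi K
    rw [s_xi F hinj hF0 h1 h2 h3, ih]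

theorem sn_DD (n : ℕ) : ((sig F hinj) ^ n) (DD K) = DD K := by
  induction n with
  | zero => rfl
  | succ n ih =>
    rw [pow_succ]
    change ((sig F hinj) ^ n) (sig F hinj (DD K)) = DD K
    rw [s_DD F hinj hF0 h1 h2 h3, ih]

theorem on2 (n : ℕ) : (((sig F hinj) ^ n) (t2 K * xi K)) ^ 2
    = (((sig F hinj) ^ n) (pp K * xi K)) ^ 3 + DD K := by
  rw [← map_pow, e2, map_add, map_pow, sn_DD F hinj hF0 h1 h2 h3]

theorem on3 (n : ℕ) : (((sig F hinj) ^ n) (t3 K * xi K)) ^ 2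
    = (((sig F hinj) ^ n) (qq K * xi K)) ^ 3 + DD K := by
  rw [← map_pow, e3, map_add, map_pow, sn_DD F hinj hF0 h1 h2 h3]

variable (K) in
/-- The first point. -/
noncomputable def P1 : (W (DD K)).Point := mk (okD K) (xi K) (xi K) (e1 K)

/-- The orbit of the second point. -/
noncomputable def P2n (n : ℕ) : (W (DD K)).Point :=
  mk (okD K) _ _ (on2 F hinj hF0 h1 h2 h3 n)

/-- The orbit of the third point. -/
noncomputable def P3n (n : ℕ) : (W (DD K)).Point :=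
  mk (okD K) _ _ (on3 F hinj hF0 h1 h2 h3 n)

open Classical in
theorem P2_succ (n : ℕ) : P2n F hinj hF0 h1 h2 h3 (n + 1)
    = P2n F hinj hF0 h1 h2 h3 n + P1 K := by
  have hne : ((sig F hinj) ^ n) (pp K * xi K) ≠ xi K := by
    intro h
    apply ne12 K
    apply RingHom.injective ((sig F hinj) ^ n)
    rw [h, sn_xi F hinj hF0 h1 h2 h3]
  obtain ⟨h4, h5⟩ := mk_add (okD K) (on2 F hinj hF0 h1 h2 h3 n) (e1 K) hne
  unfold P2n P1
  rw [h5]
  apply mk_congr
  · rw [pow_succ]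
    change ((sig F hinj) ^ n) (sig F hinj (pp K * xi K)) = _
    rw [map_mul (sig F hinj), s_pp F hinj hF0 h1, s_xi F hinj hF0 h1 h2 h3, ← x2'_eq]
    unfold x2' lam2
    simp only [map_sub, map_pow, map_div₀, sn_xi F hinj hF0 h1 h2 h3]
  · rw [pow_succ]
    change ((sig F hinj) ^ n) (sig F hinj (t2 K * xi K)) = _
    rw [map_mul (sig F hinj), s_t2 F hinj hF0 h1 h2 h3, s_xi F hinj hF0 h1 h2 h3, ← y2'_eq]
    unfold y2' x2' lam2
    rw [map_neg, map_add, map_mul ((sig F hinj) ^ n) (_ / _)]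
    simp only [map_sub, map_pow, map_div₀, sn_xi F hinj hF0 h1 h2 h3]

open Classical in
theorem P3_succ (n : ℕ) : P3n F hinj hF0 h1 h2 h3 (n + 1)
    = P3n F hinj hF0 h1 h2 h3 n + P2n F hinj hF0 h1 h2 h3 n := by
  have hne : ((sig F hinj) ^ n) (qq K * xi K) ≠ ((sig F hinj) ^ n) (pp K * xi K) := by
    intro h
    exact ne23 K (RingHom.injective ((sig F hinj) ^ n) h)
  obtain ⟨h4, h5⟩ := mk_add (okD K) (on3 F hinj hF0 h1 h2 h3 n) (on2 F hinj hF0 h1 h2 h3 n) hne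
  unfold P3n P2n
  rw [h5]
  apply mk_congr
  · rw [pow_succ]
    change ((sig F hinj) ^ n) (sig F hinj (qq K * xi K)) = _
    rw [map_mul (sig F hinj), s_qq F hinj hF0 h2, s_xi F hinj hF0 h1 h2 h3, ← x3'_eq]
    unfold x3' lam3
    simp only [map_sub, map_pow, map_div₀]
  · rw [pow_succ]
    change ((sig F hinj) ^ n) (sig F hinj (t3 K * xi K)) = _
    rw [map_mul (sig F hinj), s_t3 F hinj hF0 h1 h2 h3, s_xi F hinj hF0 h1 h2 h3, ← y3'_eq]
    unfold y3' x3' lam3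
    rw [map_neg, map_add, map_mul ((sig F hinj) ^ n) (_ / _)]
    simp only [map_sub, map_pow, map_div₀]

open Classical in
theorem P2_eq (n : ℕ) : P2n F hinj hF0 h1 h2 h3 n
    = P2n F hinj hF0 h1 h2 h3 0 + n • P1 K := by
  induction n with
  | zero => simp
  | succ n ih => rw [P2_succ, ih, add_assoc, ← succ_nsmul]

open Classical in
theorem P3_eq (n : ℕ) : P3n F hinj hF0 h1 h2 h3 n
    = P3n F hinj hF0 h1 h2 h3 0 + n • P2n F hinj hF0 h1 h2 h3 0 + (n.choose 2) • P1 K := by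
  induction n with
  | zero => simp
  | succ n ih =>
    rw [P3_succ, ih, P2_eq F hinj hF0 h1 h2 h3 n]
    have e : (n + 1).choose 2 = n.choose 2 + n := by
      rw [Nat.choose_succ_succ' n 1, Nat.choose_one_right, add_comm]
    rw [e, add_nsmul (P1 K) (n.choose 2) n, succ_nsmul (P2n F hinj hF0 h1 h2 h3 0) n]
    generalize n.choose 2 • P1 K = A
    generalize n • P1 K = B
    generalize n • P2n F hinj hF0 h1 h2 h3 0 = C
    abel

include hinj in
/-- The degrees of the iterates are bounded below. -/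
theorem deg_lower (d : ℕ) (hF : ∀ i, (F i).IsHomogeneous d) : ∃ C, ∀ i : ℕ,
    4 * 16 ^ i ≤ 27 * degIter (N := 3) F (2 ^ (i + 1)) + C * 4 ^ i := by
  classical
  have H := isHt (K := K) (by norm_num) (by norm_num)
  have hP1 : 1 ≤ qh ht (P1 K) := qh_P1 K
  obtain ⟨C, hC⟩ := comb_lower H (okD K) (P1 K) (P2n F hinj hF0 h1 h2 h3 0)
    (P3n F hinj hF0 h1 h2 h3 0) hP1
  refine ⟨27 * ht (xi K) + C, ?_⟩
  intro i
  have e1 := hC i
  rw [← P3_eq F hinj hF0 h1 h2 h3 (2 ^ (i + 1))] at e1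
  have e2 : hx ht (P3n F hinj hF0 h1 h2 h3 (2 ^ (i + 1)))
      ≤ degIter (N := 3) F (2 ^ (i + 1)) + ht (xi K) := by
    have l1 := degIter_lower F d hF (2 ^ (i + 1)) (iter_ne F hinj _ 0) 2
    rw [ratio_sig F hinj] at l1
    have l2 : hx ht (P3n F hinj hF0 h1 h2 h3 (2 ^ (i + 1)))
        = ht (((sig F hinj) ^ (2 ^ (i + 1))) (qq K * xi K)) := rfl
    rw [l2, map_mul, sn_xi F hinj hF0 h1 h2 h3]
    have l3 := ht_mul (((sig F hinj) ^ (2 ^ (i + 1))) (qq K)) (xi K)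
    have l4 : ht (((sig F hinj) ^ (2 ^ (i + 1))) (qq K)) ≤ degIter (N := 3) F (2 ^ (i + 1)) := l1
    omega
  have h41 : 1 ≤ 4 ^ i := Nat.one_le_pow _ _ (by norm_num)
  have e3 : ht (xi K) ≤ ht (xi K) * 4 ^ i := Nat.le_mul_of_pos_right _ h41
  calc 4 * 16 ^ i ≤ 27 * degIter (N := 3) F (2 ^ (i + 1)) + (27 * (ht (xi K) * 4 ^ i) + C * 4 ^ i) := by
        omega
    _ = _ := by ring

include hinj in
/-- The degrees of the iterates grow at most polynomially. -/
theorem deg_upper (d : ℕ) (hF : ∀ i, (F i).IsHomogeneous d) : ∃ C, ∀ n : ℕ,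
    degIter (N := 3) F n ≤ C * (n + 1) ^ 14 := by
  classical
  have H := isHt (K := K) (by norm_num) (by norm_num)
  obtain ⟨C3, hC3⟩ := comb_upper H (okD K) (P1 K) (P2n F hinj hF0 h1 h2 h3 0)
    (P3n F hinj hF0 h1 h2 h3 0)
  obtain ⟨C2, hC2⟩ := comb2_upper H (okD K) (P1 K) (P2n F hinj hF0 h1 h2 h3 0)
  refine ⟨4 * C3 + 4 * C2 + 4 * ht (xi K) + 2 * ht (DD K), ?_⟩
  intro n
  have b3 := hC3 n
  rw [← P3_eq F hinj hF0 h1 h2 h3 n] at b3
  have b2 := hC2 n
  rw [← P2_eq F hinj hF0 h1 h2 h3 n] at b2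
  have x3 : hx ht (P3n F hinj hF0 h1 h2 h3 n) = ht (((sig F hinj) ^ n) (qq K * xi K)) := rfl
  have x2 : hx ht (P2n F hinj hF0 h1 h2 h3 n) = ht (((sig F hinj) ^ n) (pp K * xi K)) := rfl
  rw [x3] at b3
  rw [x2] at b2
  have y3 := ht_y H (okD K) (on3 F hinj hF0 h1 h2 h3 n)
  have y2 := ht_y H (okD K) (on2 F hinj hF0 h1 h2 h3 n)
  have hxi := xi_ne K
  have hdiv : ∀ z : LL K, ht (((sig F hinj) ^ n) z)
      ≤ ht (((sig F hinj) ^ n) (z * xi K)) + ht (xi K) := by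
    intro z
    have e : ((sig F hinj) ^ n) z = ((sig F hinj) ^ n) (z * xi K) / xi K := by
      rw [map_mul, sn_xi F hinj hF0 h1 h2 h3, mul_div_cancel_right₀ _ hxi]
    rw [e]
    exact H.div _ _
  have up := degIter_upper F d hF n (iter_ne F hinj n 0)
  rw [ratio_sig F hinj, ratio_sig F hinj, ratio_sig F hinj] at up
  have u1 : ht (((sig F hinj) ^ n) (xx 1 / xx 0)) = ht (((sig F hinj) ^ n) (pp K)) := rfl
  have u2 : ht (((sig F hinj) ^ n) (xx 2 / xx 0)) = ht (((sig F hinj) ^ n) (qq K)) := rfl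
  have u3 : ht (((sig F hinj) ^ n) (xx 3 / xx 0)) = ht (((sig F hinj) ^ n) (mm K)) := rfl
  rw [u1, u2, u3] at up
  have d1 := hdiv (pp K)
  have d2 := hdiv (qq K)
  have d3 := hdiv (t2 K)
  have d4 := hdiv (t3 K)
  have hm : ht (((sig F hinj) ^ n) (mm K)) ≤ ht (((sig F hinj) ^ n) (t3 K))
      + ht (((sig F hinj) ^ n) (t2 K)) := by
    rw [mm_rec, map_div₀, map_sub, map_sub, map_one]
    have f1 := H.div (((sig F hinj) ^ n) (t3 K) - 1) (((sig F hinj) ^ n) (t2 K) - 1)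
    have f2 := H.sub (((sig F hinj) ^ n) (t3 K)) 1
    have f3 := H.sub (((sig F hinj) ^ n) (t2 K)) 1
    have f4 := H.one
    omega
  have e9 : 1 ≤ (n + 1) ^ 14 := Nat.one_le_pow _ _ (by omega)
  have e12 : ht (xi K) ≤ ht (xi K) * (n + 1) ^ 14 := Nat.le_mul_of_pos_right _ e9
  have e13 : ht (DD K) ≤ ht (DD K) * (n + 1) ^ 14 := Nat.le_mul_of_pos_right _ e9
  calc degIter (N := 3) F n ≤ 4 * (C3 * (n + 1) ^ 14) + 4 * (C2 * (n + 1) ^ 14)
        + 4 * (ht (xi K) * (n + 1) ^ 14) + 2 * (ht (DD K) * (n + 1) ^ 14) := by omega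
    _ = _ := by ring

end orbit

section final

variable [CharZero K]

theorem Deg0_xx (i : Fin 4) : IsDeg0 (xx (K := K) i / xx 0) := by
  refine ⟨1, X i, X 0, isHomogeneous_X K i, isHomogeneous_X K 0, X_ne_zero 0, ?_⟩
  exact div_mul_cancel₀ _ (xx_ne 0)

theorem one0 : IsDeg0 (1 : LL K) := by simpa using IsDeg0.natCast (K := K) 1
theorem two0 : IsDeg0 (2 : LL K) := by simpa using IsDeg0.natCast (K := K) 2
theorem pp0 : IsDeg0 (pp K) := Deg0_xx 1
theorem qq0 : IsDeg0 (qq K) := Deg0_xx 2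
theorem mm0 : IsDeg0 (mm K) := Deg0_xx 3
theorem bb0 : IsDeg0 (bb K) := one0.sub (pp0.pow 3)
theorem aa0 : IsDeg0 (aa K) := one0.sub (qq0.pow 3)
theorem dd0 : IsDeg0 (dd K) := aa0.sub (bb0.mul (mm0.pow 2))
theorem tau0 : IsDeg0 (tau K) := (two0.mul ((bb0.mul mm0).sub aa0)).div dd0
theorem t20 : IsDeg0 (t2 K) := one0.add tau0
theorem t30 : IsDeg0 (t3 K) := one0.add (mm0.mul tau0)
theorem xi0 : IsDeg0 (xi K) := (one0.sub (t20.pow 2)).div bb0
theorem lam20 : IsDeg0 (lam2 K) := ((t20.mul xi0).sub xi0).div ((pp0.mul xi0).sub xi0)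
theorem lam30 : IsDeg0 (lam3 K) :=
  ((t30.mul xi0).sub (t20.mul xi0)).div ((qq0.mul xi0).sub (pp0.mul xi0))
theorem x2'0 : IsDeg0 (x2' K) := ((lam20.pow 2).sub (pp0.mul xi0)).sub xi0
theorem y2'0 : IsDeg0 (y2' K) := ((lam20.mul (x2'0.sub (pp0.mul xi0))).add (t20.mul xi0)).neg
theorem x3'0 : IsDeg0 (x3' K) := ((lam30.pow 2).sub (qq0.mul xi0)).sub (pp0.mul xi0)
theorem y3'0 : IsDeg0 (y3' K) := ((lam30.mul (x3'0.sub (qq0.mul xi0))).add (t30.mul xi0)).neg
theorem pp'0 : IsDeg0 (pp' K) := x2'0.div xi0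
theorem qq'0 : IsDeg0 (qq' K) := x3'0.div xi0
theorem mm'0 : IsDeg0 (mm' K) := ((y3'0.div xi0).sub one0).div ((y2'0.div xi0).sub one0)

theorem main (K : Type) [Field K] [CharZero K] :
    ∃ (d : ℕ) (f : Fin (3 + 1) → MvPolynomial (Fin (3 + 1)) K), IsDominantMap d f ∧
      ∀ l : ℕ, l ≤ 3 → ∀ δ : ℝ,
        ¬ Comparable (fun n => degIter f n) (fun n => (n : ℝ) ^ l * δ ^ n) := by
  obtain ⟨d1, u1, v1, hu1, hv1, n1, e1⟩ := pp'0 (K := K)
  obtain ⟨d2, u2, v2, hu2, hv2, n2, e2⟩ := qq'0 (K := K)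
  obtain ⟨d3, u3, v3, hu3, hv3, n3, e3⟩ := mm'0 (K := K)
  have hX := isHomogeneous_X K (0 : Fin 4)
  set F : Fin 4 → R K := ![X 0 * (v1 * v2 * v3), X 0 * (u1 * v2 * v3), X 0 * (v1 * u2 * v3),
    X 0 * (v1 * v2 * u3)] with hFdef
  have hF : ∀ i, (F i).IsHomogeneous (1 + (d1 + d2 + d3)) := by
    intro i
    fin_cases i
    · exact hX.mul ((hv1.mul hv2).mul hv3)
    · exact hX.mul ((hu1.mul hv2).mul hv3)
    · exact hX.mul ((hv1.mul hu2).mul hv3)
    · exact hX.mul ((hv1.mul hv2).mul hu3)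
  have hF0 : F 0 ≠ 0 := mul_ne_zero (X_ne_zero 0) (mul_ne_zero (mul_ne_zero n1 n2) n3)
  have k1 : algebraMap (R K) (LL K) (F 1) = pp' K * algebraMap (R K) (LL K) (F 0) := by
    simp only [hFdef, Matrix.cons_val_one, Matrix.cons_val_zero, map_mul]
    rw [← e1]
    ring
  have k2 : algebraMap (R K) (LL K) (F 2) = qq' K * algebraMap (R K) (LL K) (F 0) := by
    simp only [hFdef, Matrix.cons_val, Matrix.cons_val_zero, map_mul]
    rw [← e2]
    ring
  have k3 : algebraMap (R K) (LL K) (F 3) = mm' K * algebraMap (R K) (LL K) (F 0) := by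
    simp only [hFdef, Matrix.cons_val, Matrix.cons_val_zero, map_mul]
    rw [← e3]
    ring
  have hinj := dominant K F (1 + (d1 + d2 + d3)) (by omega) hF hF0 k1 k2 k3
  refine ⟨1 + (d1 + d2 + d3), F, ⟨hF, hinj⟩, ?_⟩
  rintro l hl δ ⟨c1, c2, c3, hc1, hc2, -, hc⟩
  obtain ⟨C, hu⟩ := deg_upper F hinj hF0 k1 k2 k3 _ hF
  obtain ⟨C', hl'⟩ := deg_lower F hinj hF0 k1 k2 k3 _ hF
  exact not_comparable (degIter (N := 3) F) C 14 hu 27 C' hl' l hl δ c1 c2 c3 hc1 hc2 hc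

theorem not_conj : ¬ DegreeGrowthConjecture := by
  intro h
  obtain ⟨d, f, hf, hl⟩ := main ℚ
  obtain ⟨l, hl3, δ, -, hc⟩ := h ℚ 3 (by norm_num) d f hf
  exact hl l hl3 δ hc

end final

end Pool.Agent.H9.DegGrowth
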