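import Pool.Agent.H9.DegGrowth.Homog

/-!
# Values of rational functions at points, and the concrete functions
-/

namespace Pool.Agent.H9.DegGrowth

open MvPolynomial

variable {K : Type} [Field K]

/-- The function `z` is regular at the point `a` and has the value `c` there. -/
def Sp (a : Fin 4 → K) (z : LL K) (c : K) : Prop :=
  ∃ u v : R K, eval a v ≠ 0 ∧ z * algebraMap (R K) (LL K) v = algebraMap (R K) (LL K) u ∧
    eval a u = c * eval a v

variable {a : Fin 4 → K} {x y : LL K} {c c' : K}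

theorem Sp.unique (h : Sp a x c) (h' : Sp a x c') : c = c' := by
  obtain ⟨u, v, hv, e, hu⟩ := h
  obtain ⟨u', v', hv', e', hu'⟩ := h'
  have h1 : u * v' = u' * v := by
    apply IsFractionRing.injective (R K) (LL K)
    rw [map_mul, map_mul, ← e, ← e']
    ring
  have h2 := congrArg (eval a) h1
  rw [map_mul, map_mul, hu, hu'] at h2
  have h3 : (c - c') * (eval a v * eval a v') = 0 := by linear_combination h2
  rcases mul_eq_zero.1 h3 with h4 | h4
  · exact sub_eq_zero.1 h4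
  · exact absurd h4 (mul_ne_zero hv hv')

theorem Sp.congr (h : Sp a x c) (hc : c = c') : Sp a x c' := hc ▸ h

theorem Sp.add (h : Sp a x c) (h' : Sp a y c') : Sp a (x + y) (c + c') := by
  obtain ⟨u, v, hv, e, hu⟩ := h
  obtain ⟨u', v', hv', e', hu'⟩ := h'
  refine ⟨u * v' + u' * v, v * v', ?_, ?_, ?_⟩
  · rw [map_mul]
    exact mul_ne_zero hv hv'
  · rw [map_mul, map_add, map_mul, map_mul, ← e, ← e']
    ring
  · rw [map_mul, map_add, map_mul, map_mul, hu, hu']
    ring

theorem Sp.mul (h : Sp a x c) (h' : Sp a y c') : Sp a (x * y) (c * c') := by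
  obtain ⟨u, v, hv, e, hu⟩ := h
  obtain ⟨u', v', hv', e', hu'⟩ := h'
  refine ⟨u * u', v * v', ?_, ?_, ?_⟩
  · rw [map_mul]
    exact mul_ne_zero hv hv'
  · rw [map_mul, map_mul, ← e, ← e']
    ring
  · rw [map_mul, map_mul, hu, hu']
    ring

theorem Sp.neg (h : Sp a x c) : Sp a (-x) (-c) := by
  obtain ⟨u, v, hv, e, hu⟩ := h
  refine ⟨-u, v, hv, ?_, ?_⟩
  · rw [map_neg, ← e]
    ring
  · rw [map_neg, hu]
    ring

theorem Sp.sub (h : Sp a x c) (h' : Sp a y c') : Sp a (x - y) (c - c') := by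
  rw [sub_eq_add_neg, sub_eq_add_neg]
  exact h.add h'.neg

theorem Sp.const (k : K) : Sp a (algebraMap (R K) (LL K) (C k)) k :=
  ⟨C k, 1, by simp, by simp, by simp⟩

theorem Sp.natCast (n : ℕ) : Sp a (n : LL K) (n : K) := by
  have := Sp.const (a := a) (n : K)
  rwa [map_natCast C, map_natCast] at this

theorem Sp.one : Sp a (1 : LL K) (1 : K) := by
  simpa using Sp.natCast (K := K) (a := a) 1

theorem Sp.two : Sp a (2 : LL K) (2 : K) := by
  simpa using Sp.natCast (K := K) (a := a) 2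

theorem Sp.zero : Sp a (0 : LL K) (0 : K) := by
  simpa using Sp.natCast (K := K) (a := a) 0

theorem Sp.ne_zero (h : Sp a x c) (hc : c ≠ 0) : x ≠ 0 := by
  rintro rfl
  exact hc (h.unique Sp.zero)

theorem Sp.ne (h : Sp a x c) (h' : Sp a y c') (hc : c ≠ c') : x ≠ y := by
  rintro rfl
  exact hc (h.unique h')

theorem Sp.inv (h : Sp a x c) (hc : c ≠ 0) : Sp a x⁻¹ c⁻¹ := by
  have hx := h.ne_zero hc
  obtain ⟨u, v, hv, e, hu⟩ := h
  refine ⟨v, u, ?_, ?_, ?_⟩
  · rw [hu]
    exact mul_ne_zero hc hv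
  · rw [← e, ← mul_assoc, inv_mul_cancel₀ hx, one_mul]
  · rw [hu, ← mul_assoc, inv_mul_cancel₀ hc, one_mul]

theorem Sp.div (h : Sp a x c) (h' : Sp a y c') (hc : c' ≠ 0) : Sp a (x / y) (c / c') := by
  rw [div_eq_mul_inv, div_eq_mul_inv]
  exact h.mul (h'.inv hc)

theorem Sp.pow (h : Sp a x c) (n : ℕ) : Sp a (x ^ n) (c ^ n) := by
  induction n with
  | zero => simpa using Sp.one
  | succ n ih =>
    rw [pow_succ, pow_succ]
    exact ih.mul h

/-- The variables as elements of the field. -/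
noncomputable def xx (i : Fin 4) : LL K := algebraMap (R K) (LL K) (X i)

theorem xx_ne (i : Fin 4) : xx (K := K) i ≠ 0 := alg_ne (X_ne_zero i)

theorem Sp.xx (i : Fin 4) : Sp a (xx i) (a i) :=
  ⟨X i, 1, by simp, by simp [DegGrowth.xx], by simp⟩

variable (K) in
/-- affine coordinate -/
noncomputable def pp : LL K := xx 1 / xx 0
variable (K) in
/-- affine coordinate -/
noncomputable def qq : LL K := xx 2 / xx 0
variable (K) in
/-- affine coordinate -/
noncomputable def mm : LL K := xx 3 / xx 0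
variable (K) in
/-- `1 - p ^ 3` -/
noncomputable def bb : LL K := 1 - pp K ^ 3
variable (K) in
/-- `1 - q ^ 3` -/
noncomputable def aa : LL K := 1 - qq K ^ 3
variable (K) in
/-- denominator -/
noncomputable def dd : LL K := aa K - bb K * mm K ^ 2
variable (K) in
/-- `t_2 - 1` -/
noncomputable def tau : LL K := 2 * (bb K * mm K - aa K) / dd K
variable (K) in
/-- `t_2` -/
noncomputable def t2 : LL K := 1 + tau K
variable (K) in
/-- `t_3` -/
noncomputable def t3 : LL K := 1 + mm K * tau K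
variable (K) in
/-- `ξ` -/
noncomputable def xi : LL K := (1 - t2 K ^ 2) / bb K
variable (K) in
/-- `D` -/
noncomputable def DD : LL K := xi K ^ 2 * (1 - xi K)
variable (K) in
/-- slope -/
noncomputable def lam2 : LL K := (t2 K * xi K - xi K) / (pp K * xi K - xi K)
variable (K) in
/-- slope -/
noncomputable def lam3 : LL K := (t3 K * xi K - t2 K * xi K) / (qq K * xi K - pp K * xi K)
variable (K) in
/-- new x-coordinate -/
noncomputable def x2' : LL K := lam2 K ^ 2 - pp K * xi K - xi K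
variable (K) in
/-- new y-coordinate -/
noncomputable def y2' : LL K := -(lam2 K * (x2' K - pp K * xi K) + t2 K * xi K)
variable (K) in
/-- new x-coordinate -/
noncomputable def x3' : LL K := lam3 K ^ 2 - qq K * xi K - pp K * xi K
variable (K) in
/-- new y-coordinate -/
noncomputable def y3' : LL K := -(lam3 K * (x3' K - qq K * xi K) + t3 K * xi K)
variable (K) in
/-- new coordinate -/
noncomputable def pp' : LL K := x2' K / xi K
variable (K) in
/-- new coordinate -/
noncomputable def qq' : LL K := x3' K / xi K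
variable (K) in
/-- new `t_2` -/
noncomputable def t2' : LL K := y2' K / xi K
variable (K) in
/-- new `t_3` -/
noncomputable def t3' : LL K := y3' K / xi K
variable (K) in
/-- new coordinate -/
noncomputable def mm' : LL K := (t3' K - 1) / (t2' K - 1)

section values

theorem sp_pp (h : a 0 = 1) : Sp a (pp K) (a 1) := by
  have := (Sp.xx (a := a) 1).div (Sp.xx (a := a) 0) (by rw [h]; exact one_ne_zero)
  rwa [h, div_one] at this

theorem sp_qq (h : a 0 = 1) : Sp a (qq K) (a 2) := by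
  have := (Sp.xx (a := a) 2).div (Sp.xx (a := a) 0) (by rw [h]; exact one_ne_zero)
  rwa [h, div_one] at this

theorem sp_mm (h : a 0 = 1) : Sp a (mm K) (a 3) := by
  have := (Sp.xx (a := a) 3).div (Sp.xx (a := a) 0) (by rw [h]; exact one_ne_zero)
  rwa [h, div_one] at this

variable [CharZero K]

variable (K) in
/-- The first point. -/
def pt1 : Fin 4 → K := ![1, 2, 3, 2]
variable (K) in
/-- The second point. -/
def pt2 : Fin 4 → K := ![1, 2, 3, -1]

theorem v_pp : Sp (pt1 K) (pp K) 2 := sp_pp rfl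
theorem v_qq : Sp (pt1 K) (qq K) 3 := sp_qq rfl
theorem v_mm : Sp (pt1 K) (mm K) 2 := sp_mm rfl
theorem w_pp : Sp (pt2 K) (pp K) 2 := sp_pp rfl
theorem w_qq : Sp (pt2 K) (qq K) 3 := sp_qq rfl
theorem w_mm : Sp (pt2 K) (mm K) (-1) := sp_mm rfl

theorem v_bb : Sp (pt1 K) (bb K) (-7) := (Sp.one.sub (v_pp.pow 3)).congr (by norm_num)
theorem v_aa : Sp (pt1 K) (aa K) (-26) := (Sp.one.sub (v_qq.pow 3)).congr (by norm_num)
theorem v_dd : Sp (pt1 K) (dd K) 2 := (v_aa.sub (v_bb.mul (v_mm.pow 2))).congr (by norm_num)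
theorem v_tau : Sp (pt1 K) (tau K) 12 :=
  ((Sp.two.mul ((v_bb.mul v_mm).sub v_aa)).div v_dd (by norm_num)).congr (by norm_num)
theorem v_t2 : Sp (pt1 K) (t2 K) 13 := (Sp.one.add v_tau).congr (by norm_num)
theorem v_t3 : Sp (pt1 K) (t3 K) 25 := (Sp.one.add (v_mm.mul v_tau)).congr (by norm_num)
theorem v_xi : Sp (pt1 K) (xi K) 24 :=
  ((Sp.one.sub (v_t2.pow 2)).div v_bb (by norm_num)).congr (by norm_num)
theorem v_DD : Sp (pt1 K) (DD K) (-13248) :=
  ((v_xi.pow 2).mul (Sp.one.sub v_xi)).congr (by norm_num)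
theorem v_lam2 : Sp (pt1 K) (lam2 K) 12 :=
  (((v_t2.mul v_xi).sub v_xi).div ((v_pp.mul v_xi).sub v_xi) (by norm_num)).congr (by norm_num)
theorem v_lam3 : Sp (pt1 K) (lam3 K) 12 :=
  (((v_t3.mul v_xi).sub (v_t2.mul v_xi)).div ((v_qq.mul v_xi).sub (v_pp.mul v_xi))
    (by norm_num)).congr (by norm_num)
theorem v_x2' : Sp (pt1 K) (x2' K) 72 :=
  (((v_lam2.pow 2).sub (v_pp.mul v_xi)).sub v_xi).congr (by norm_num)
theorem v_y2' : Sp (pt1 K) (y2' K) (-600) :=
  (((v_lam2.mul (v_x2'.sub (v_pp.mul v_xi))).add (v_t2.mul v_xi)).neg).congr (by norm_num)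
theorem v_x3' : Sp (pt1 K) (x3' K) 24 :=
  (((v_lam3.pow 2).sub (v_qq.mul v_xi)).sub (v_pp.mul v_xi)).congr (by norm_num)
theorem v_y3' : Sp (pt1 K) (y3' K) (-24) :=
  (((v_lam3.mul (v_x3'.sub (v_qq.mul v_xi))).add (v_t3.mul v_xi)).neg).congr (by norm_num)
theorem v_pp' : Sp (pt1 K) (pp' K) 3 := (v_x2'.div v_xi (by norm_num)).congr (by norm_num)
theorem v_qq' : Sp (pt1 K) (qq' K) 1 := (v_x3'.div v_xi (by norm_num)).congr (by norm_num)
theorem v_t2' : Sp (pt1 K) (t2' K) (-25) := (v_y2'.div v_xi (by norm_num)).congr (by norm_num)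
theorem v_t3' : Sp (pt1 K) (t3' K) (-1) := (v_y3'.div v_xi (by norm_num)).congr (by norm_num)

theorem w_bb : Sp (pt2 K) (bb K) (-7) := (Sp.one.sub (w_pp.pow 3)).congr (by norm_num)
theorem w_aa : Sp (pt2 K) (aa K) (-26) := (Sp.one.sub (w_qq.pow 3)).congr (by norm_num)
theorem w_dd : Sp (pt2 K) (dd K) (-19) := (w_aa.sub (w_bb.mul (w_mm.pow 2))).congr (by norm_num)
theorem w_tau : Sp (pt2 K) (tau K) (-66 / 19) :=
  ((Sp.two.mul ((w_bb.mul w_mm).sub w_aa)).div w_dd (by norm_num)).congr (by norm_num)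
theorem w_t2 : Sp (pt2 K) (t2 K) (-47 / 19) := (Sp.one.add w_tau).congr (by norm_num)
theorem w_xi : Sp (pt2 K) (xi K) (264 / 361) :=
  ((Sp.one.sub (w_t2.pow 2)).div w_bb (by norm_num)).congr (by norm_num)

end values

end Pool.Agent.H9.DegGrowth
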